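import Pool.Agent.P.MP_def758_al.Defs

namespace Pool.Agent.P.MP_def758_al

open Module Finset

variable {k : Type*} [Field k] {ι : Type*} [Fintype ι] [DecidableEq ι]

theorem finrank_ZS (deg : ι → ℕ) (S : Finset ℕ) :
    finrank k (ZS k deg S) + ∑ i ∈ S, #{a | deg a = i} = Fintype.card ι := by
  let f : (ι → k) →ₗ[k] ({a // deg a ∈ S} → k) := LinearMap.funLeft k k Subtype.val
  have hs : Function.Surjective f :=
    LinearMap.funLeft_surjective_of_injective k k _ Subtype.val_injective
  have hk : LinearMap.ker f = ZS k deg S := by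
    ext v
    rw [LinearMap.mem_ker, mem_ZS, funext_iff]
    exact ⟨fun h a ha => h ⟨a, ha⟩, fun h a => h a.1 a.2⟩
  have h1 := LinearMap.finrank_range_add_finrank_ker f
  rw [LinearMap.range_eq_top.2 hs, finrank_top, hk, Module.finrank_fintype_fun_eq_card,
    Module.finrank_fintype_fun_eq_card, Fintype.card_subtype] at h1
  rw [← h1, add_comm]
  refine congrArg (· + _) ?_
  rw [card_eq_sum_card_fiberwise (f := deg) (s := univ.filter fun x => deg x ∈ S) (t := S)
    fun a ha => (mem_filter.1 ha).2]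
  refine sum_congr rfl fun i hi => congrArg card ?_
  ext a
  simp only [mem_filter, mem_univ, true_and]
  exact ⟨fun h => ⟨h ▸ hi, h⟩, fun h => h.2⟩

omit [Fintype ι] [DecidableEq ι] in
theorem ZS_inf (deg : ι → ℕ) (S T : Finset ℕ) : ZS k deg S ⊓ ZS k deg T = ZS k deg (S ∪ T) := by
  ext v
  simp only [Submodule.mem_inf, mem_ZS, mem_union]
  exact ⟨fun h a ha => ha.elim (h.1 a) (h.2 a),
    fun h => ⟨fun a ha => h a (Or.inl ha), fun a ha => h a (Or.inr ha)⟩⟩

theorem blk_apply_sum (A : End k (ι → k)) (v : ι → k) (a : ι) :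
    A v a = ∑ b, v b * A (Pi.single b 1) a := by
  conv_lhs => rw [pi_eq_sum_univ' v]
  simp only [map_sum, map_smul, Finset.sum_apply, Pi.smul_apply, smul_eq_mul]

theorem blk_le_cm (deg : ι → ℕ) (S : Finset ℕ) : blk k deg ≤ cm (ZS k deg S) (ZS k deg S) := by
  intro A hA v hv a ha
  rw [blk_apply_sum]
  refine sum_eq_zero fun b _ => ?_
  by_cases h : deg a = deg b
  · rw [hv b (h ▸ ha), zero_mul]
  · rw [hA a b h, mul_zero]

theorem blk_le_cent (deg : ι → ℕ) : blk k deg ≤ cent (Dg k deg) := by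
  intro A hA
  rw [mem_cent]
  refine LinearMap.ext fun v => funext fun a => ?_
  rw [End.mul_apply, End.mul_apply, Dg_apply, blk_apply_sum, blk_apply_sum, mul_sum]
  refine sum_congr rfl fun b _ => ?_
  by_cases h : deg a = deg b
  · rw [Dg_apply, h, mul_assoc]
  · rw [hA a b h]; simp

theorem le_finrank_blk (deg : ι → ℕ) (S : Finset ℕ) :
    ∑ i ∈ S, #{a | deg a = i} ^ 2 ≤ finrank k (blk k deg) := by
  let I := {p : ι × ι // deg p.1 = deg p.2 ∧ deg p.1 ∈ S}
  let f : blk k deg →ₗ[k] (I → k) :=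
    { toFun := fun A p => A.1 (Pi.single p.1.2 1) p.1.1
      map_add' := fun _ _ => rfl
      map_smul' := fun _ _ => rfl }
  have hs : Function.Surjective f := by
    intro g
    let m : Matrix ι ι k := fun a b =>
      if h : deg a = deg b ∧ deg a ∈ S then g ⟨(a, b), h⟩ else 0
    have hm : ∀ a b, Matrix.toLin' m (Pi.single b 1) a = m a b := fun a b => by simp
    refine ⟨⟨Matrix.toLin' m, fun a b h => ?_⟩, funext fun p => ?_⟩
    · rw [hm]; exact dif_neg fun h' => h h'.1
    · exact (hm _ _).trans (dif_pos p.2)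
  have h1 := LinearMap.finrank_range_le f
  rw [LinearMap.range_eq_top.2 hs, finrank_top, Module.finrank_fintype_fun_eq_card,
    Fintype.card_subtype] at h1
  refine le_trans (le_of_eq ?_) h1
  rw [card_eq_sum_card_fiberwise (f := fun p : ι × ι => deg p.1) (t := S)
    fun a ha => (mem_filter.1 ha).2.2]
  refine sum_congr rfl fun i hi => ?_
  rw [sq, ← card_product]
  refine congrArg card ?_
  ext p
  simp only [mem_product, mem_filter, mem_univ, true_and]
  exact ⟨fun h => ⟨⟨h.1.trans h.2.symm, h.1 ▸ hi⟩, h.1⟩, fun h => ⟨h.2, h.1.1 ▸ h.2⟩⟩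

end Pool.Agent.P.MP_def758_al
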