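import Mathlib

namespace Pool.Agent.P.MP_def758_al

attribute [local instance 100] LieRing.ofAssociativeRing

open LieAlgebra.SpecialLinear

/-- The orbit of `x` in `g = sl n` is strange: `g` is the direct sum (of vector spaces) of the
centraliser of `x` in `g` and a Lie subalgebra `h` of `g`. -/
def Strange {k : Type*} [Field k] {n : ℕ} (x : sl (Fin n) k) : Prop :=
  ∃ h : LieSubalgebra k (sl (Fin n) k),
    (∀ y ∈ h, ⁅x, y⁆ = 0 → y = 0) ∧ ∀ y : sl (Fin n) k, ∃ z w, ⁅x, z⁆ = 0 ∧ w ∈ h ∧ y = z + w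

end Pool.Agent.P.MP_def758_al
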