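import Pool.Agent.P.MP_def758_al.Defs
import Pool.Agent.P.MP_def758_al.Stmt

namespace Pool.Agent.P.MP_def758_al

open Module LieAlgebra.SpecialLinear

attribute [local instance 100] LieRing.ofAssociativeRing

variable {k : Type*} [Field k] {V : Type*} [AddCommGroup V] [Module k V] {n : ℕ}

theorem strange_of (b : Basis (Fin n) k V) (x : End k V) (X : sl (Fin n) k)
    (hX : (X : Matrix (Fin n) (Fin n) k) = LinearMap.toMatrix b b x)
    (h : Submodule k (End k V)) (hh : LieC h) (ht : h ≤ tr0 k V) (hi : h ⊓ cent x = ⊥)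
    (hs : h ⊔ cent x = ⊤) : Strange X := by
  let φ := LinearMap.toMatrixAlgEquiv b
  have hx : φ.symm (X : Matrix (Fin n) (Fin n) k) = x := by
    rw [hX]; exact φ.symm_apply_apply x
  have tr : ∀ A : End k V, LinearMap.trace k V A = Matrix.trace (φ A) := fun A =>
    LinearMap.trace_eq_matrix_trace k b A
  have br : ∀ Y : sl (Fin n) k, ⁅X, Y⁆ = 0 ↔ φ.symm (Y : Matrix (Fin n) (Fin n) k) ∈ cent x :=
    fun Y => by
      rw [Subtype.ext_iff, sl_bracket, mem_cent, ← hx, ← map_mul, ← map_mul,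
        φ.symm.injective.eq_iff, ZeroMemClass.coe_zero, sub_eq_zero, eq_comm]
  let H : LieSubalgebra k (sl (Fin n) k) :=
    { carrier := {Y | φ.symm (Y : Matrix (Fin n) (Fin n) k) ∈ h}
      zero_mem' := by simp
      add_mem' := fun {a c} ha hc => by
        change φ.symm ((a : Matrix (Fin n) (Fin n) k) + c) ∈ h
        rw [map_add]
        exact h.add_mem ha hc
      smul_mem' := fun c a ha => by
        change φ.symm (c • (a : Matrix (Fin n) (Fin n) k)) ∈ h
        rw [map_smul]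
        exact h.smul_mem c ha
      lie_mem' := fun {a c} ha hc => by
        change φ.symm (⁅a, c⁆ : sl (Fin n) k).val ∈ h
        rw [sl_bracket, map_sub, map_mul, map_mul]
        exact hh _ ha _ hc }
  refine ⟨H, fun y hy h0 => ?_, fun y => ?_⟩
  · have : φ.symm (y : Matrix (Fin n) (Fin n) k) ∈ h ⊓ cent x := ⟨hy, (br y).1 h0⟩
    rw [hi, Submodule.mem_bot, map_eq_zero_iff _ φ.symm.injective] at this
    exact Subtype.ext this
  · have : φ.symm (y : Matrix (Fin n) (Fin n) k) ∈ h ⊔ cent x := hs ▸ trivial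
    obtain ⟨w, hw, z, hz, e⟩ := Submodule.mem_sup.1 this
    have w0 : φ w ∈ sl (Fin n) k := (tr w).symm.trans (ht hw)
    have e1 : φ.symm ((y - ⟨φ w, w0⟩ : sl (Fin n) k) : Matrix (Fin n) (Fin n) k) = z := by
      change φ.symm ((y : Matrix (Fin n) (Fin n) k) - φ w) = z
      rw [map_sub, ← e, φ.symm_apply_apply, add_sub_cancel_left]
    refine ⟨y - ⟨φ w, w0⟩, ⟨φ w, w0⟩, (br _).2 (e1 ▸ hz), ?_, (sub_add_cancel _ _).symm⟩
    change φ.symm (φ w) ∈ h
    rwa [φ.symm_apply_apply]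

theorem of_strange [CharZero k] (b : Basis (Fin n) k V) (x : End k V) (X : sl (Fin n) k)
    (hX : (X : Matrix (Fin n) (Fin n) k) = LinearMap.toMatrix b b x) (hS : Strange X) :
    ∃ h : Submodule k (End k V), LieC h ∧ h ⊓ cent x = ⊥ ∧ h ⊔ cent x = ⊤ := by
  let φ := LinearMap.toMatrixAlgEquiv b
  have hx : φ.symm (X : Matrix (Fin n) (Fin n) k) = x := by
    rw [hX]; exact φ.symm_apply_apply x
  have br : ∀ Y : sl (Fin n) k, ⁅X, Y⁆ = 0 ↔ φ.symm (Y : Matrix (Fin n) (Fin n) k) ∈ cent x :=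
    fun Y => by
      rw [Subtype.ext_iff, sl_bracket, mem_cent, ← hx, ← map_mul, ← map_mul,
        φ.symm.injective.eq_iff, ZeroMemClass.coe_zero, sub_eq_zero, eq_comm]
  obtain ⟨H, h1, h2⟩ := hS
  let h : Submodule k (End k V) :=
    { carrier := {A | ∃ Y ∈ H, φ.symm (Y : Matrix (Fin n) (Fin n) k) = A}
      zero_mem' := ⟨0, H.zero_mem, by simp⟩
      add_mem' := fun ⟨a, ha, ea⟩ ⟨c, hc, ec⟩ => ⟨a + c, H.add_mem ha hc, by
        rw [← ea, ← ec, ← map_add]; rfl⟩
      smul_mem' := fun c _ ⟨a, ha, ea⟩ => ⟨c • a, H.smul_mem c ha, by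
        rw [← ea, ← map_smul]; rfl⟩ }
  refine ⟨h, ?_, eq_bot_iff.2 ?_, eq_top_iff.2 fun A _ => ?_⟩
  · rintro _ ⟨a, ha, rfl⟩ _ ⟨c, hc, rfl⟩
    exact ⟨⁅a, c⁆, H.lie_mem ha hc, by rw [sl_bracket, map_sub, map_mul, map_mul]⟩
  · rintro _ ⟨⟨a, ha, rfl⟩, hc⟩
    rw [h1 a ha ((br a).2 hc)]
    simp
  · have t : φ A - (Matrix.trace (φ A) / n) • 1 ∈ sl (Fin n) k := by
      change Matrix.trace (φ A - (Matrix.trace (φ A) / n) • 1) = 0
      rcases Nat.eq_zero_or_pos n with rfl | hn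
      · simp [Matrix.trace]
      · have : (n : k) ≠ 0 := Nat.cast_ne_zero.2 hn.ne'
        rw [Matrix.trace_sub, Matrix.trace_smul, Matrix.trace_one, Fintype.card_fin, smul_eq_mul,
          div_mul_cancel₀ _ this, sub_self]
    obtain ⟨z, w, hz, hw, e⟩ := h2 ⟨_, t⟩
    have e1 : φ A - (Matrix.trace (φ A) / n) • 1 = z.val + w.val := congrArg Subtype.val e
    have e2 := congrArg φ.symm e1
    rw [map_sub, map_smul, map_one, φ.symm_apply_apply, map_add, sub_eq_iff_eq_add,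
      add_comm (φ.symm z.val), add_assoc] at e2
    rw [e2]
    exact Submodule.add_mem_sup ⟨w, hw, rfl⟩ (Submodule.add_mem _ ((br z).1 hz)
      (Submodule.smul_mem _ _ (by simp [mem_cent])))

end Pool.Agent.P.MP_def758_al
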