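import Pool.Agent.P.MP_def758_al.Defs

namespace Pool.Agent.P.MP_def758_al

open Module

variable {k : Type*} [Field k] {V : Type*} [AddCommGroup V] [Module k V] [FiniteDimensional k V]

omit [FiniteDimensional k V] in
theorem centB_top (Z : End k V) : cent Z ⊓ cm (⊤ : Submodule k V) ⊥ = ⊥ := by
  rw [eq_bot_iff]
  intro A hA
  rw [Submodule.mem_bot]
  ext v
  exact (Submodule.mem_bot k).1 (hA.2 v Submodule.mem_top)

theorem centB_step (Z : End k V) (γ : ℕ) (a : k)
    (h : finrank k (LinearMap.ker (Z - a • (1 : End k V))) ≤ γ) (L : Submodule k V) (v : V)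
    (hv : Z v - a • v ∈ L) :
    finrank k ↥(cent Z ⊓ cm L ⊥) ≤ finrank k ↥(cent Z ⊓ cm (L ⊔ k ∙ v) ⊥) + γ := by
  have hmem : ∀ X : ↥(cent Z ⊓ cm L ⊥),
      (X : End k V) v ∈ LinearMap.ker (Z - a • (1 : End k V)) := by
    intro X
    have h1 : (X : End k V) (Z v) = Z ((X : End k V) v) :=
      LinearMap.congr_fun (mem_cent.1 X.2.1) v
    have h2 : (X : End k V) (Z v - a • v) = 0 := (Submodule.mem_bot k).1 (X.2.2 _ hv)
    rw [map_sub, map_smul, h1] at h2
    rw [LinearMap.mem_ker, LinearMap.sub_apply, LinearMap.smul_apply, End.one_apply]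
    exact h2
  let φ : ↥(cent Z ⊓ cm L ⊥) →ₗ[k] LinearMap.ker (Z - a • (1 : End k V)) :=
    { toFun := fun X => ⟨(X : End k V) v, hmem X⟩
      map_add' := fun X Y => Subtype.ext rfl
      map_smul' := fun c X => Subtype.ext rfl }
  have h1 := LinearMap.finrank_range_add_finrank_ker φ
  have h2 : finrank k (LinearMap.range φ) ≤ γ := (Submodule.finrank_le _).trans h
  have h3 : (LinearMap.ker φ).map (cent Z ⊓ cm L ⊥).subtype ≤ cent Z ⊓ cm (L ⊔ k ∙ v) ⊥ := by
    rintro _ ⟨X, hX, rfl⟩
    have hXv : (X : End k V) v = 0 := congrArg Subtype.val (LinearMap.mem_ker.1 hX)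
    refine ⟨X.2.1, fun w hw => ?_⟩
    obtain ⟨y, hy, z, hz, rfl⟩ := Submodule.mem_sup.1 hw
    obtain ⟨c, rfl⟩ := Submodule.mem_span_singleton.1 hz
    have hy0 : (X : End k V) y = 0 := (Submodule.mem_bot k).1 (X.2.2 _ hy)
    rw [Submodule.mem_bot, Submodule.subtype_apply, map_add, map_smul, hy0, hXv, smul_zero,
      add_zero]
  have h4 := Submodule.finrank_mono h3
  rw [Submodule.finrank_map_subtype_eq] at h4
  omega

theorem centB_ind [IsAlgClosed k] (Z : End k V) (γ : ℕ)
    (h : ∀ a : k, finrank k (LinearMap.ker (Z - a • (1 : End k V))) ≤ γ) (m : ℕ) :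
    ∀ L : Submodule k V, L ≤ L.comap Z → finrank k V ≤ finrank k L + m →
      finrank k ↥(cent Z ⊓ cm L ⊥) ≤ m * γ := by
  induction m with
  | zero =>
    intro L _ hm
    have hL : L = ⊤ := Submodule.eq_top_of_finrank_eq
      (le_antisymm (Submodule.finrank_le L) (by omega))
    rw [hL, centB_top, finrank_bot]
    exact Nat.zero_le _
  | succ m ih =>
    intro L hL hm
    by_cases htop : L = ⊤
    · rw [htop, centB_top, finrank_bot]
      exact Nat.zero_le _
    · have : Nontrivial (V ⧸ L) := Submodule.Quotient.nontrivial_iff.2 htop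
      obtain ⟨a, ha⟩ := End.exists_eigenvalue (L.mapQ L Z hL)
      obtain ⟨q, hq⟩ := ha.exists_hasEigenvector
      obtain ⟨v, rfl⟩ := L.mkQ_surjective q
      have hvL : v ∉ L := fun hv => hq.2 (by
        rw [Submodule.mkQ_apply]
        exact (Submodule.Quotient.mk_eq_zero L).2 hv)
      have hv : Z v - a • v ∈ L := by
        have h1 := hq.apply_eq_smul
        rw [Submodule.mkQ_apply, Submodule.mapQ_apply, ← Submodule.Quotient.mk_smul] at h1
        exact (Submodule.Quotient.eq L).1 h1
      have hlt : L < L ⊔ k ∙ v := lt_of_le_of_ne le_sup_left fun he =>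
        hvL (he ▸ Submodule.mem_sup_right (Submodule.mem_span_singleton_self v))
      have hrk := Submodule.finrank_lt_finrank_of_lt hlt
      have hinv : L ⊔ k ∙ v ≤ (L ⊔ k ∙ v).comap Z := by
        refine sup_le (fun y hy => Submodule.mem_sup_left (hL hy)) ?_
        rw [Submodule.span_singleton_le_iff_mem, Submodule.mem_comap]
        have h2 : Z v = (Z v - a • v) + a • v := (sub_add_cancel _ _).symm
        rw [h2]
        exact Submodule.add_mem_sup hv
          (Submodule.smul_mem _ a (Submodule.mem_span_singleton_self v))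
      have h3 := ih _ hinv (by omega)
      have h4 := centB_step Z γ a (h a) L v hv
      rw [Nat.succ_mul]
      omega

theorem cent_bound [IsAlgClosed k] (Z : End k V) (γ : ℕ)
    (h : ∀ a : k, finrank k (LinearMap.ker (Z - a • (1 : End k V))) ≤ γ) :
    finrank k (cent Z) ≤ finrank k V * γ := by
  have h1 := centB_ind Z γ h (finrank k V) ⊥ bot_le (by omega)
  have h2 : cent Z ⊓ cm (⊥ : Submodule k V) ⊥ = cent Z := by
    refine inf_eq_left.2 fun A _ v hv => ?_
    rw [(Submodule.mem_bot k).1 hv, map_zero]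
    exact Submodule.zero_mem _
  rwa [h2] at h1

end Pool.Agent.P.MP_def758_al
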