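import Pool.Agent.P.MP_def758_al.Shift

namespace Pool.Agent.P.MP_def758_al

open Module Finset

variable {k : Type*} [Field k] {P : Type*} [Fintype P] [DecidableEq P] (lam : P → ℕ)

omit [Fintype P] [DecidableEq P] in
theorem centSq_comm {X : End k (Ix lam → k)} (hX : X ∈ cent (sh k lam ^ 2)) (s : ℕ)
    (v : Ix lam → k) : X ((sh k lam ^ (2 * s)) v) = (sh k lam ^ (2 * s)) (X v) := by
  have h : Commute X (sh k lam ^ 2) := mem_cent.1 hX
  have h2 := (h.pow_right s).eq
  rw [← pow_mul] at h2
  exact LinearMap.congr_fun h2 v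

/-- the coordinates that determine an element of the commutant -/
def centSq_map : cent (sh k lam ^ 2) →ₗ[k]
    ((Σ p : P, Σ e : Fin 2, Σ q : P, Fin (min (lam q) (2 * ((lam p + 1 - e.val) / 2)))) → k) where
  toFun X a := co k lam a.2.2.1 (lam a.2.2.1 - 1 - a.2.2.2.val)
    ((X : End k (Ix lam → k)) (Bv k lam a.1 a.2.1.val))
  map_add' X Y := by
    ext a
    simp
  map_smul' c X := by
    ext a
    simp

theorem centSq_inj : Function.Injective (centSq_map (k := k) lam) := by
  rw [injective_iff_map_eq_zero]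
  intro X hX
  have key : ∀ (p : P) (e : Fin 2), (X : End k (Ix lam → k)) (Bv k lam p e.val) = 0 := by
    intro p e
    apply ext_co lam
    intro q j hj
    rw [map_zero]
    by_cases hc : j + 2 * ((lam p + 1 - e.val) / 2) < lam q
    · have h1 := centSq_comm lam X.2 ((lam p + 1 - e.val) / 2) (Bv k lam p e.val)
      have he := e.2
      rw [sh_pow_Bv, Bv_eq_zero lam (by omega), map_zero] at h1
      have h2 := co_sh_pow lam (2 * ((lam p + 1 - e.val) / 2)) q
        (j + 2 * ((lam p + 1 - e.val) / 2)) ((X : End k (Ix lam → k)) (Bv k lam p e.val))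
      rw [← h1, map_zero, if_pos ⟨Nat.le_add_left _ _, hc⟩, Nat.add_sub_cancel] at h2
      exact h2.symm
    · have h3 : lam q - 1 - j < min (lam q) (2 * ((lam p + 1 - e.val) / 2)) := by
        rw [lt_min_iff]
        omega
      have h4 := congrFun hX ⟨p, e, q, ⟨lam q - 1 - j, h3⟩⟩
      have h5 : lam q - 1 - (lam q - 1 - j) = j := by omega
      simpa only [centSq_map, LinearMap.coe_mk, AddHom.coe_mk, h5, Pi.zero_apply] using h4
  apply Subtype.ext
  apply ext_Bv lam
  intro p i _
  have h1 : Bv k lam p i = (sh k lam ^ (2 * (i / 2))) (Bv k lam p (i % 2)) := by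
    rw [sh_pow_Bv, Nat.mod_add_div]
  have h2 := key p ⟨i % 2, Nat.mod_lt _ two_pos⟩
  rw [h1, centSq_comm lam X.2, h2, map_zero]
  rfl

theorem finrank_cent_sq : finrank k (cent (sh k lam ^ 2)) ≤
    ∑ p, (∑ q, min (lam q) (2 * ((lam p + 1) / 2)) + ∑ q, min (lam q) (2 * (lam p / 2))) := by
  refine (LinearMap.finrank_le_finrank_of_injective (centSq_inj (k := k) lam)).trans ?_
  rw [Module.finrank_fintype_fun_eq_card]
  simp only [Fintype.card_sigma, Fintype.card_fin, Fin.sum_univ_two, Fin.val_zero, Fin.val_one,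
    Nat.sub_zero, Nat.add_sub_cancel, le_refl]

end Pool.Agent.P.MP_def758_al
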