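import Mathlib

namespace Pool.Agent.P.MP_def758_al

open Module

variable {k : Type*} [Field k] {V : Type*} [AddCommGroup V] [Module k V]

/-- endomorphisms mapping `Y` into `U` -/
def cm (Y U : Submodule k V) : Submodule k (End k V) where
  carrier := {A | ∀ v ∈ Y, A v ∈ U}
  zero_mem' := fun _ _ => U.zero_mem
  add_mem' := fun ha hb v hv => U.add_mem (ha v hv) (hb v hv)
  smul_mem' := fun c _ ha v hv => U.smul_mem c (ha v hv)

theorem mem_cm {Y U : Submodule k V} {A : End k V} : A ∈ cm Y U ↔ ∀ v ∈ Y, A v ∈ U := Iff.rfl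

theorem cm_mono {Y Y' U U' : Submodule k V} (h1 : Y' ≤ Y) (h2 : U ≤ U') : cm Y U ≤ cm Y' U' :=
  fun _ ha v hv => h2 (ha v (h1 hv))

/-- closed under commutators -/
def LieC (h : Submodule k (End k V)) : Prop := ∀ A ∈ h, ∀ B ∈ h, A * B - B * A ∈ h

/-- commutant -/
def cent (x : End k V) : Submodule k (End k V) where
  carrier := {A | A * x = x * A}
  zero_mem' := by simp
  add_mem' := fun {a b} ha hb => by
    simp only [Set.mem_ofPred_eq] at *
    rw [add_mul, mul_add, ha, hb]
  smul_mem' := fun c a ha => by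
    simp only [Set.mem_ofPred_eq] at *
    rw [smul_mul_assoc, mul_smul_comm, ha]

theorem mem_cent {x A : End k V} : A ∈ cent x ↔ A * x = x * A := Iff.rfl

/-- traceless endomorphisms -/
noncomputable def tr0 (k V : Type*) [Field k] [AddCommGroup V] [Module k V] :
    Submodule k (End k V) := LinearMap.ker (LinearMap.trace k V)

theorem mem_tr0 {A : End k V} : A ∈ tr0 k V ↔ LinearMap.trace k V A = 0 := Iff.rfl

/-- restrictions to `W` of the elements of `h` preserving `W` -/
def res (W : Submodule k V) (h : Submodule k (End k V)) : Submodule k (End k W) where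
  carrier := {B | ∃ A ∈ h, ∀ w : W, (B w : V) = A w}
  zero_mem' := ⟨0, h.zero_mem, fun _ => rfl⟩
  add_mem' := fun ⟨A, hA, ea⟩ ⟨A', hA', ea'⟩ => ⟨A + A', h.add_mem hA hA', fun w => by
    simp [ea, ea']⟩
  smul_mem' := fun c _ ⟨A, hA, ea⟩ => ⟨c • A, h.smul_mem c hA, fun w => by simp [ea]⟩

theorem mem_res {W : Submodule k V} {h : Submodule k (End k V)} {B : End k W} :
    B ∈ res W h ↔ ∃ A ∈ h, ∀ w : W, (B w : V) = A w := Iff.rfl

/-- maps induced on `V ⧸ N` by the elements of `h` preserving `N` -/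
def quo (N : Submodule k V) (h : Submodule k (End k V)) : Submodule k (End k (V ⧸ N)) where
  carrier := {B | ∃ A ∈ h, ∀ v : V, B (N.mkQ v) = N.mkQ (A v)}
  zero_mem' := ⟨0, h.zero_mem, fun _ => by simp⟩
  add_mem' := fun ⟨A, hA, ea⟩ ⟨A', hA', ea'⟩ => ⟨A + A', h.add_mem hA hA', fun w => by
    rw [LinearMap.add_apply, ea, ea', LinearMap.add_apply, map_add]⟩
  smul_mem' := fun c _ ⟨A, hA, ea⟩ => ⟨c • A, h.smul_mem c hA, fun w => by
    rw [LinearMap.smul_apply, ea, LinearMap.smul_apply, map_smul]⟩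

theorem mem_quo {N : Submodule k V} {h : Submodule k (End k V)} {B : End k (V ⧸ N)} :
    B ∈ quo N h ↔ ∃ A ∈ h, ∀ v : V, B (N.mkQ v) = N.mkQ (A v) := Iff.rfl

section Graded

variable (k) {ι : Type*} [DecidableEq ι]

/-- block diagonal endomorphisms for the grading `deg` of the coordinates -/
def blk (deg : ι → ℕ) : Submodule k (End k (ι → k)) where
  carrier := {A | ∀ a b, deg a ≠ deg b → A (Pi.single b 1) a = 0}
  zero_mem' := fun _ _ _ => rfl
  add_mem' := fun ha hb a b h => by simp [ha a b h, hb a b h]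
  smul_mem' := fun c _ ha a b h => by simp [ha a b h]

/-- vectors vanishing on the coordinates whose degree is in `S` -/
def ZS (deg : ι → ℕ) (S : Finset ℕ) : Submodule k (ι → k) where
  carrier := {v | ∀ a, deg a ∈ S → v a = 0}
  zero_mem' := fun _ _ => rfl
  add_mem' := fun ha hb a h => by simp [ha a h, hb a h]
  smul_mem' := fun c _ ha a h => by simp [ha a h]

/-- the grading operator -/
def Dg (deg : ι → ℕ) : End k (ι → k) where
  toFun v a := (deg a : k) * v a
  map_add' v w := by ext a; simp [mul_add]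
  map_smul' c v := by ext a; simp [mul_left_comm]

variable {k}

theorem mem_blk {deg : ι → ℕ} {A : End k (ι → k)} :
    A ∈ blk k deg ↔ ∀ a b, deg a ≠ deg b → A (Pi.single b 1) a = 0 := Iff.rfl

omit [DecidableEq ι] in
theorem mem_ZS {deg : ι → ℕ} {S : Finset ℕ} {v : ι → k} :
    v ∈ ZS k deg S ↔ ∀ a, deg a ∈ S → v a = 0 := Iff.rfl

omit [DecidableEq ι] in
theorem Dg_apply (deg : ι → ℕ) (v : ι → k) (a : ι) : Dg k deg v a = (deg a : k) * v a := rfl

end Graded

section Shift

variable (k) {P : Type*} (lam : P → ℕ)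

/-- coordinates of a sum of Jordan blocks of sizes `lam p` -/
abbrev Ix : Type _ := Σ p : P, Fin (lam p)

/-- the basis vector `t ^ i b_p` (zero if `lam p ≤ i`) -/
def Bv [DecidableEq P] (p : P) (i : ℕ) : Ix lam → k :=
  fun a => if a.1 = p ∧ a.2.val = i then 1 else 0

/-- the coordinate of `t ^ i b_p` (zero if `lam p ≤ i`) -/
def co (p : P) (i : ℕ) : (Ix lam → k) →ₗ[k] k where
  toFun v := if h : i < lam p then v ⟨p, ⟨i, h⟩⟩ else 0
  map_add' v w := by split_ifs <;> simp
  map_smul' c v := by split_ifs <;> simp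

/-- the shift `t` -/
def sh : End k (Ix lam → k) where
  toFun v a := if a.2.val = 0 then 0 else co k lam a.1 (a.2.val - 1) v
  map_add' v w := by ext a; simp only [Pi.add_apply]; split_ifs <;> simp
  map_smul' c v := by ext a; simp only [Pi.smul_apply]; split_ifs <;> simp

end Shift

/-- numbers of blocks -/
def mu : Fin 4 → ℕ := ![11, 6, 7, 7]

/-- the 31 blocks -/
abbrev PP : Type := Σ j : Fin 4, Fin (mu j)

/-- block sizes -/
def lam0 (p : PP) : ℕ := if p.2.val = 0 then 82 + mu p.1 else if p.2.val = 1 then 81 else 82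

end Pool.Agent.P.MP_def758_al
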