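import Pool.Agent.P.MP_def758_al.Defs

namespace Pool.Agent.P.MP_def758_al

open Module

variable {k : Type*} [Field k] {V : Type*} [AddCommGroup V] [Module k V] [FiniteDimensional k V]

theorem GI [Infinite k] {U : Type*} [AddCommGroup U] [Module k U] (T0 T1 : V →ₗ[k] U)
    (h : Function.Injective T0) : ∃ t : k, t ≠ 0 ∧ Function.Injective (T0 + t • T1) := by
  obtain ⟨L, hL⟩ := T0.exists_leftInverse_of_injective (LinearMap.ker_eq_bot.2 h)
  obtain ⟨c, hc⟩ := ((End.finite_hasEigenvalue (L ∘ₗ T1)).insert 0).exists_notMem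
  rw [Set.mem_insert_iff, not_or] at hc
  refine ⟨-c⁻¹, neg_ne_zero.2 (inv_ne_zero hc.1), (injective_iff_map_eq_zero _).2 fun v hv => ?_⟩
  by_contra h0
  refine hc.2 (End.hasEigenvalue_of_hasEigenvector ⟨End.mem_eigenspace_iff.2 ?_, h0⟩)
  have e := congrArg (fun u => c • L u) hv
  have e0 : L (T0 v) = v := LinearMap.congr_fun hL v
  simp only [LinearMap.add_apply, LinearMap.smul_apply, LinearMap.neg_apply, map_add, map_smul,
    map_neg, e0, smul_add, smul_neg, smul_smul, mul_inv_cancel₀ hc.1, neg_smul, one_smul, map_zero,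
    smul_zero] at e
  exact (add_neg_eq_zero.1 e).symm

omit [FiniteDimensional k V] in
theorem GI_comm_pow {x D : End k V} (hD : D * x - x * D = x) (m : ℕ) :
    D * x ^ m - x ^ m * D = (m : k) • x ^ m := by
  induction m with
  | zero => simp
  | succ m ih =>
    have e : D * x ^ (m + 1) - x ^ (m + 1) * D =
        (D * x ^ m - x ^ m * D) * x + x ^ m * (D * x - x * D) := by
      rw [pow_succ]
      noncomm_ring
    rw [e, ih, hD, smul_mul_assoc, ← pow_succ, Nat.cast_succ, add_smul, one_smul]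

omit [FiniteDimensional k V] in
theorem GI_conj [CharZero k] {x D : End k V} (hx : IsNilpotent x) (hD : D * x - x * D = x)
    (s : k) : ∃ u : (End k V)ˣ, (D - s • x) * u = u * D := by
  obtain ⟨N, hN⟩ := hx
  have hu : IsUnit (∑ m ∈ Finset.range (N + 1), (s ^ m / m.factorial) • x ^ m) := by
    have hc : Commute x (∑ m ∈ Finset.range N, (s ^ (m + 1) / (m + 1).factorial) • x ^ m) :=
      Commute.sum_right _ _ _ fun m _ => ((Commute.refl x).pow_right m).smul_right _
    have := (hc.isNilpotent_mul_right ⟨N, hN⟩).isUnit_add_one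
    rw [Finset.mul_sum] at this
    rw [Finset.sum_range_succ']
    simpa only [mul_smul_comm, ← pow_succ', pow_zero, Nat.factorial_zero, Nat.cast_one, div_one,
      one_smul] using this
  refine ⟨hu.unit, ?_⟩
  rw [hu.unit_spec, sub_mul, sub_eq_iff_eq_add', ← sub_eq_iff_eq_add, Finset.mul_sum,
    Finset.sum_mul, ← Finset.sum_sub_distrib, Finset.mul_sum, Finset.sum_range_succ',
    Finset.sum_range_succ]
  simp only [mul_smul_comm, smul_mul_assoc, ← smul_sub, GI_comm_pow hD, smul_smul, ← pow_succ']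
  rw [pow_succ x N, hN, zero_mul, smul_zero, Nat.cast_zero, mul_zero, zero_smul]
  congr 1
  refine Finset.sum_congr rfl fun m _ => ?_
  congr 1
  have h1 : ((m + 1 : ℕ) : k) ≠ 0 := Nat.cast_ne_zero.2 (Nat.succ_ne_zero m)
  have h2 : (m.factorial : k) ≠ 0 := Nat.cast_ne_zero.2 (Nat.factorial_ne_zero m)
  rw [Nat.factorial_succ, Nat.cast_mul]
  field_simp
  ring

theorem deform [CharZero k] {x D : End k V} (hx : IsNilpotent x) (hD : D * x - x * D = x)
    (h : Submodule k (End k V)) (hh : h ⊓ cent x = ⊥) :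
    ∃ h' : Submodule k (End k V), finrank k h' = finrank k h ∧ (LieC h → LieC h') ∧
      h' ⊓ cent D = ⊥ := by
  obtain ⟨t, ht, hi⟩ := GI ((LinearMap.mulRight k x - LinearMap.mulLeft k x) ∘ₗ h.subtype)
    ((LinearMap.mulRight k D - LinearMap.mulLeft k D) ∘ₗ h.subtype)
    ((injective_iff_map_eq_zero _).2 fun A hA => Subtype.ext
      ((Submodule.eq_bot_iff _).1 hh A.1 ⟨A.2, sub_eq_zero.1 hA⟩))
  obtain ⟨u, hu⟩ := GI_conj hx hD (-t⁻¹)
  let f : End k V →ₗ[k] End k V := LinearMap.mulLeft k (u⁻¹).1 ∘ₗ LinearMap.mulRight k u.1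
  have hf : ∀ A, f A = (u⁻¹).1 * (A * u.1) := fun _ => rfl
  have hfi : Function.Injective f := fun A B e =>
    u.mul_left_inj.1 ((u⁻¹).mul_right_inj.1 e)
  refine ⟨h.map f, (Submodule.equivMapOfInjective f hfi h).finrank_eq.symm, ?_, ?_⟩
  · rintro hL _ ⟨A, hA, rfl⟩ _ ⟨B, hB, rfl⟩
    refine ⟨_, hL A hA B hB, ?_⟩
    simp only [hf, sub_mul, mul_sub, mul_assoc, Units.mul_inv_cancel_left]
  · rw [Submodule.eq_bot_iff]
    rintro _ ⟨⟨A, hA, rfl⟩, hc⟩
    have e : (u⁻¹).1 * (A * u.1) * D = D * ((u⁻¹).1 * (A * u.1)) := hc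
    have e1 : A * (D - -t⁻¹ • x) = (D - -t⁻¹ • x) * A := by
      refine u.mul_left_inj.1 ?_
      have e2 := congrArg (fun B => u.1 * B) e
      simp only [mul_assoc, Units.mul_inv_cancel_left] at e2
      rw [mul_assoc, hu, e2, ← mul_assoc, ← hu, mul_assoc, Units.mul_inv_cancel_left, mul_assoc]
    have e3 : (⟨A, hA⟩ : h) = 0 := (injective_iff_map_eq_zero _).1 hi _ (by
      change A * x - x * A + t • (A * D - D * A) = 0
      have e4 := congrArg (fun B => t • B) e1
      simp only [mul_add, add_mul, mul_smul_comm, smul_mul_assoc, smul_add, smul_smul,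
        mul_inv_cancel₀ ht, neg_smul, one_smul, sub_neg_eq_add] at e4
      rw [smul_sub, ← sub_eq_zero.2 e4]
      abel)
    rw [show A = 0 from congrArg Subtype.val e3, map_zero]

theorem cent_le [CharZero k] {x D : End k V} (hx : IsNilpotent x) (hD : D * x - x * D = x) :
    finrank k (cent D) ≤ finrank k (cent x) := by
  obtain ⟨h, hc⟩ := (cent x).exists_isCompl
  obtain ⟨h', h1, -, h2⟩ := deform hx hD h hc.symm.inf_eq_bot
  have e1 := Submodule.finrank_add_finrank_le_of_disjoint (disjoint_iff.2 h2)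
  have e2 := Submodule.finrank_add_eq_of_isCompl hc
  omega

end Pool.Agent.P.MP_def758_al
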