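import Pool.Agent.P.MP_def758_al.LemA

namespace Pool.Agent.P.MP_def758_al

open Module

variable {k : Type*} [Field k] {V : Type*} [AddCommGroup V] [Module k V] [FiniteDimensional k V]

theorem gap [IsAlgClosed k] (hV : finrank k V = 31) (r : Submodule k (End k V)) (hr : LieC r)
    (v : V) (hv : v ≠ 0) (hrv : r ≤ cm (k ∙ v) (k ∙ v)) (h : 903 ≤ finrank k r) :
    929 ≤ finrank k r := by
  obtain ⟨I, C, hI, hC, d, hle⟩ := lemA r hr 58 3 (by rw [hV]; omega) (by rw [hV]; omega)
    (by rw [hV]; omega)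
  have dv := finrank_span_singleton (K := k) hv
  have key : ∀ Y : Submodule k V, r ≤ cm Y Y → Y ≤ k ∙ v ∨ finrank k Y = 31 := fun Y hY => by
    obtain ⟨Y', hY'⟩ := Submodule.exists_isCompl (((k ∙ v) ⊓ Y).comap Y.subtype)
    have e1 := Submodule.finrank_add_eq_of_isCompl hY'
    have e0 : finrank k (((k ∙ v) ⊓ Y).comap Y.subtype) = finrank k ↥((k ∙ v) ⊓ Y) :=
      (Submodule.comapSubtypeEquivOfLe inf_le_right).finrank_eq
    have e2 : (k ∙ v) ⊓ Y'.map Y.subtype = ⊥ := by
      rw [eq_bot_iff]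
      rintro _ ⟨hw, y, hy, rfl⟩
      have : y ∈ ((k ∙ v) ⊓ Y).comap Y.subtype ⊓ Y' := ⟨⟨hw, y.2⟩, hy⟩
      rw [hY'.inf_eq_bot, Submodule.mem_bot] at this
      simp [this]
    have e3 := L2 (k ∙ v) Y e2
    have e4 : finrank k r ≤ finrank k ↥(cm (k ∙ v) (k ∙ v) ⊓ cm (Y'.map Y.subtype) Y) :=
      Submodule.finrank_mono (le_inf hrv (hY.trans (cm_mono (Submodule.map_subtype_le _ _) le_rfl)))
    rw [Submodule.finrank_map_subtype_eq, hV, dv] at e3
    have e5 : finrank k ↥((k ∙ v) ⊓ Y) ≤ 1 := dv ▸ Submodule.finrank_mono inf_le_left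
    have e6 := Submodule.finrank_le Y
    by_cases c : finrank k Y' = 0
    · left
      rw [← inf_eq_right]
      exact Submodule.eq_of_le_of_finrank_eq inf_le_right (by omega)
    · right
      rw [e0] at e1
      rw [hV] at e6
      generalize finrank k Y = y at *
      generalize finrank k Y' = y' at *
      have : y' ≤ 31 := by omega
      interval_cases y' <;> omega
  have i3 := Submodule.finrank_le C
  have i1 : I ≤ k ∙ v := (key I hI).resolve_right (by omega)
  have i2 : C = ⊤ := by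
    rcases key C hC with c | c
    · have := Submodule.finrank_mono c
      omega
    · exact Submodule.eq_top_of_finrank_eq (by omega)
  have c2 := finrank_cm (k ∙ v) ⊥
  have c3 := L6 (cm (k ∙ v) ⊥)
  have c4 : finrank k ↥(cm (k ∙ v) ⊥ ⊓ tr0 k V) ≤ finrank k r :=
    Submodule.finrank_mono (le_trans (inf_le_inf_right _
      (le_inf (cm_mono i1 le_rfl) (by rw [i2]; exact fun A _ v _ => trivial))) hle)
  rw [finrank_bot, dv, hV] at c2
  omega

end Pool.Agent.P.MP_def758_al
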