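import Pool.Agent.P.MP_def758_al.Defs

namespace Pool.Agent.P.MP_def758_al

open Module

variable {k : Type*} [Field k] {V : Type*} [AddCommGroup V] [Module k V] [FiniteDimensional k V]

theorem finrank_End : finrank k (End k V) = finrank k V * finrank k V := by
  exact Module.finrank_linearMap k k V V

theorem finrank_cm (Y U : Submodule k V) :
    finrank k (cm Y U) + finrank k Y * (finrank k V - finrank k U) = finrank k V * finrank k V := by
  let Φ : End k V →ₗ[k] (Y →ₗ[k] V ⧸ U) :=
    { toFun := fun A => U.mkQ ∘ₗ A ∘ₗ Y.subtype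
      map_add' := fun A B => by ext v; simp
      map_smul' := fun c A => by ext v; simp }
  have hker : LinearMap.ker Φ = cm Y U := by
    ext A
    rw [LinearMap.mem_ker, mem_cm]
    constructor
    · intro h v hv
      have h1 : Φ A ⟨v, hv⟩ = 0 := by rw [h]; rfl
      exact (Submodule.Quotient.mk_eq_zero U).1 h1
    · intro h
      ext v
      exact (Submodule.Quotient.mk_eq_zero U).2 (h v v.2)
  have hrange : LinearMap.range Φ = ⊤ := by
    rw [LinearMap.range_eq_top]
    intro f
    obtain ⟨s, hs⟩ := U.mkQ.exists_rightInverse_of_surjective (Submodule.range_mkQ U)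
    obtain ⟨g, hg⟩ := LinearMap.exists_extend (s ∘ₗ f)
    refine ⟨g, ?_⟩
    show U.mkQ ∘ₗ g ∘ₗ Y.subtype = f
    rw [hg, ← LinearMap.comp_assoc, hs, LinearMap.id_comp]
  have h1 := LinearMap.finrank_range_add_finrank_ker Φ
  rw [hker, hrange, finrank_top, Module.finrank_linearMap, finrank_End] at h1
  have h2 := U.finrank_quotient_add_finrank
  have h3 : finrank k (V ⧸ U) = finrank k V - finrank k U := by omega
  rw [h3] at h1
  omega

theorem L4gen {T S X : Submodule k (End k V)} (h : T ⊔ S = ⊤) (hS : S ≤ X) :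
    finrank k ↥(T ⊓ X) + finrank k V * finrank k V = finrank k T + finrank k X := by
  have h1 := Submodule.finrank_sup_add_finrank_inf_eq T X
  have h2 : T ⊔ X = ⊤ := top_le_iff.1 (h ▸ sup_le_sup_left hS T)
  rw [h2, finrank_top, finrank_End] at h1
  omega

theorem L4le (T : Submodule k (End k V)) (Y U : Submodule k V) :
    finrank k T ≤ finrank k ↥(T ⊓ cm Y U) + finrank k Y * (finrank k V - finrank k U) := by
  have h1 := Submodule.finrank_sup_add_finrank_inf_eq T (cm Y U)
  have h2 : finrank k ↥(T ⊔ cm Y U) ≤ finrank k (End k V) := Submodule.finrank_le _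
  rw [finrank_End] at h2
  have h3 := finrank_cm Y U
  omega

theorem L4 {T S : Submodule k (End k V)} {Y U : Submodule k V} (h : T ⊔ S = ⊤)
    (hS : S ≤ cm Y U) :
    finrank k ↥(T ⊓ cm Y U) + finrank k Y * (finrank k V - finrank k U) = finrank k T := by
  have h1 := L4gen h hS
  have h3 := finrank_cm Y U
  omega

theorem L2 {Y1 Y2 : Submodule k V} (U1 U2 : Submodule k V) (h : Y1 ⊓ Y2 = ⊥) :
    finrank k ↥(cm Y1 U1 ⊓ cm Y2 U2) + finrank k Y1 * (finrank k V - finrank k U1)
      + finrank k Y2 * (finrank k V - finrank k U2) = finrank k V * finrank k V := by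
  have hd : Disjoint Y2 Y1 := by rw [disjoint_iff, inf_comm]; exact h
  obtain ⟨C, hC, hC1⟩ : ∃ C : Submodule k V, IsCompl Y2 C ∧ Y1 ≤ C := by
    obtain ⟨D, hD⟩ := (Y2 ⊔ Y1).exists_isCompl
    refine ⟨Y1 ⊔ D, ⟨?_, ?_⟩, le_sup_left⟩
    · exact hd.disjoint_sup_right_of_disjoint_sup_left hD.disjoint
    · rw [codisjoint_iff, ← sup_assoc]
      exact hD.sup_eq_top
  have htop : cm Y1 U1 ⊔ cm Y2 U2 = ⊤ := by
    rw [eq_top_iff]
    intro A _
    let p : End k V := Y2.subtype ∘ₗ Y2.projectionOnto C hC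
    have hp1 : ∀ v ∈ Y1, p v = 0 := fun v hv => by
      show Y2.subtype (Y2.projectionOnto C hC v) = 0
      rw [Submodule.projectionOnto_apply_of_mem_right hC (hC1 hv), map_zero]
    have hp2 : ∀ v ∈ Y2, p v = v := fun v hv => by
      show Y2.subtype (Y2.projectionOnto C hC v) = v
      have := Submodule.projectionOnto_apply_left hC ⟨v, hv⟩
      rw [show Y2.projectionOnto C hC v = ⟨v, hv⟩ from this]
      rfl
    have e : A = A * p + (A - A * p) := by abel
    rw [e]
    refine Submodule.add_mem_sup ?_ ?_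
    · intro v hv
      rw [Module.End.mul_apply, hp1 v hv, map_zero]
      exact U1.zero_mem
    · intro v hv
      rw [LinearMap.sub_apply, Module.End.mul_apply, hp2 v hv, sub_self]
      exact U2.zero_mem
  have h1 := L4 htop (le_refl (cm Y2 U2))
  have h2 := finrank_cm Y1 U1
  omega

theorem L3 {T : Submodule k (End k V)} {Y1 Y2 U1 U2 : Submodule k V} (h1 : U1 ≤ Y1)
    (h2 : U2 ≤ Y2) (hY : T ≤ cm Y1 Y2) (hU : T ≤ cm U1 U2) :
    finrank k T ≤ finrank k ↥(T ⊓ cm Y1 U2)
      + (finrank k Y1 - finrank k U1) * (finrank k Y2 - finrank k U2) := by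
  obtain ⟨D, hD⟩ := U1.exists_isCompl
  set C := D ⊓ Y1 with hCdef
  have hsup : U1 ⊔ C = Y1 := by
    rw [hCdef, ← sup_inf_assoc_of_le D h1, hD.sup_eq_top, top_inf_eq]
  have hinf : U1 ⊓ C = ⊥ := by
    rw [hCdef, ← inf_assoc, hD.inf_eq_bot, bot_inf_eq]
  have hc := Submodule.finrank_sup_add_finrank_inf_eq U1 C
  rw [hsup, hinf, finrank_bot] at hc
  have hc' : finrank k Y1 - finrank k U1 = finrank k C := by omega
  have hT : T ≤ cm C Y2 := hY.trans (cm_mono inf_le_right le_rfl)
  have hle : T ⊓ cm C U2 ≤ T ⊓ cm Y1 U2 := by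
    rintro A ⟨hA, hA2⟩
    refine ⟨hA, ?_⟩
    intro v hv
    rw [← hsup] at hv
    obtain ⟨a, ha, b, hb, rfl⟩ := Submodule.mem_sup.1 hv
    rw [map_add]
    exact U2.add_mem (hU hA a ha) (hA2 b hb)
  have e1 := Submodule.finrank_sup_add_finrank_inf_eq T (cm C U2)
  have e2 : finrank k ↥(T ⊔ cm C U2) ≤ finrank k (cm C Y2) :=
    Submodule.finrank_mono (sup_le hT (cm_mono le_rfl h2))
  have e3 := Submodule.finrank_mono hle
  have e4 := finrank_cm C Y2
  have e5 := finrank_cm C U2
  have e6 := Submodule.finrank_mono h2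
  have e7 := Submodule.finrank_le Y2
  have e8 : finrank k V - finrank k U2
      = (finrank k V - finrank k Y2) + (finrank k Y2 - finrank k U2) := by omega
  rw [e8, mul_add] at e5
  rw [hc']
  omega

theorem L5 {T S : Submodule k (End k V)} {W Z : Submodule k V} (h : T ⊔ S = ⊤)
    (hS : S ≤ cm W W) (hT : T ≤ cm Z Z) :
    finrank k ↥(W ⊓ Z) = finrank k W - (finrank k V - finrank k Z) := by
  have htop : cm (W ⊓ Z) (W ⊔ Z) = ⊤ := by
    rw [eq_top_iff, ← h]
    exact sup_le (hT.trans (cm_mono inf_le_right le_sup_right))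
      (hS.trans (cm_mono inf_le_left le_sup_left))
  have e1 := finrank_cm (W ⊓ Z) (W ⊔ Z)
  rw [htop, finrank_top, finrank_End] at e1
  have e2 : finrank k ↥(W ⊓ Z) * (finrank k V - finrank k ↥(W ⊔ Z)) = 0 := by omega
  have e3 := Submodule.finrank_sup_add_finrank_inf_eq W Z
  have e4 := Submodule.finrank_le (W ⊔ Z)
  have e5 := Submodule.finrank_le Z
  rcases Nat.mul_eq_zero.1 e2 with h0 | h0 <;> omega

theorem L6 (X : Submodule k (End k V)) : finrank k X ≤ finrank k ↥(X ⊓ tr0 k V) + 1 := by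
  have e1 := Submodule.finrank_sup_add_finrank_inf_eq X (tr0 k V)
  have e2 := Submodule.finrank_le (X ⊔ tr0 k V)
  have e3 := LinearMap.finrank_range_add_finrank_ker (LinearMap.trace k V)
  have e4 := Submodule.finrank_le (LinearMap.range (LinearMap.trace k V))
  rw [Module.finrank_self] at e4
  have e5 : finrank k (tr0 k V) = finrank k (LinearMap.ker (LinearMap.trace k V)) := rfl
  have e6 : finrank k (End k V) = finrank k (V →ₗ[k] V) := rfl
  omega

theorem L7_aux (F : Submodule k (End k V)) (m : ℕ) (s : Finset V)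
    (h : ∀ w ∈ s, finrank k F ≤ finrank k ↥(F ⊓ cm (k ∙ w) ⊥) + m) :
    finrank k F ≤ finrank k ↥(F ⊓ cm (Submodule.span k (s : Set V)) ⊥) + s.card * m := by
  classical
  induction s using Finset.induction_on with
  | empty =>
    have : F ⊓ cm (Submodule.span k ((∅ : Finset V) : Set V)) ⊥ = F := by
      rw [inf_eq_left]
      intro A _ v hv
      rw [Finset.coe_empty, Submodule.span_empty, Submodule.mem_bot] at hv
      rw [hv, map_zero]
      exact Submodule.zero_mem _
    rw [this]
    omega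
  | insert w s hw ih =>
    have i1 := ih (fun v hv => h v (Finset.mem_insert_of_mem hv))
    have i2 := h w (Finset.mem_insert_self w s)
    have e1 := Submodule.finrank_sup_add_finrank_inf_eq
      (F ⊓ cm (Submodule.span k (s : Set V)) ⊥) (F ⊓ cm (k ∙ w) ⊥)
    have e2 : finrank k ↥((F ⊓ cm (Submodule.span k (s : Set V)) ⊥) ⊔ (F ⊓ cm (k ∙ w) ⊥))
        ≤ finrank k F := Submodule.finrank_mono (sup_le inf_le_left inf_le_left)
    have hle : (F ⊓ cm (Submodule.span k (s : Set V)) ⊥) ⊓ (F ⊓ cm (k ∙ w) ⊥)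
        ≤ F ⊓ cm (Submodule.span k ((insert w s : Finset V) : Set V)) ⊥ := by
      rintro A ⟨⟨hA, hA1⟩, -, hA2⟩
      refine ⟨hA, ?_⟩
      intro v hv
      rw [Finset.coe_insert, Submodule.span_insert] at hv
      obtain ⟨a, ha, b, hb, rfl⟩ := Submodule.mem_sup.1 hv
      rw [map_add]
      exact Submodule.add_mem _ (hA2 a ha) (hA1 b hb)
    have e3 := Submodule.finrank_mono hle
    rw [Finset.card_insert_of_notMem hw, add_mul, one_mul]
    omega

theorem L7 (F : Submodule k (End k V)) (K : Submodule k V) (m : ℕ)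
    (h : ∀ w ∈ K, w ≠ 0 → finrank k F ≤ finrank k ↥(F ⊓ cm (k ∙ w) ⊥) + m) :
    finrank k F ≤ finrank k ↥(F ⊓ cm K ⊥) + finrank k K * m := by
  classical
  let b := Module.finBasis k K
  let s : Finset V := Finset.univ.image (fun i => (b i : V))
  have hspan : Submodule.span k (s : Set V) = K := by
    have e : (s : Set V) = K.subtype '' Set.range b := by
      ext v
      simp [s]
    rw [e, Submodule.span_image, b.span_eq, Submodule.map_top, Submodule.range_subtype]
  have hcard : s.card ≤ finrank k K := by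
    refine Finset.card_image_le.trans ?_
    simp
  have h1 := L7_aux F m s (fun w hw => by
    obtain ⟨i, -, rfl⟩ := Finset.mem_image.1 hw
    exact h _ (b i).2 (fun h0 => b.ne_zero i (Subtype.ext h0)))
  rw [hspan] at h1
  exact h1.trans (Nat.add_le_add_left (Nat.mul_le_mul_right m hcard) _)

end Pool.Agent.P.MP_def758_al
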