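import Pool.Agent.P.MP_def758_al.GI

namespace Pool.Agent.P.MP_def758_al

open Module

variable {k : Type*} [Field k] {V : Type*} [AddCommGroup V] [Module k V] [FiniteDimensional k V]

theorem ex_min_mk {α : Type*} (p : α → Prop) (f : α → ℕ) (h : ∃ a, p a) :
    ∃ a, p a ∧ ∀ b, p b → f a ≤ f b := by
  classical
  have h' : ∃ n, ∃ a, p a ∧ f a = n := h.elim fun a ha => ⟨_, a, ha, rfl⟩
  obtain ⟨a, ha, e⟩ := Nat.find_spec h'
  exact ⟨a, ha, fun b hb => e ▸ Nat.find_min' h' ⟨b, hb, rfl⟩⟩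

theorem rn_mk {U : Type*} [AddCommGroup U] [Module k U] (g : V →ₗ[k] U) (W : Submodule k V) :
    finrank k (W.map g) + finrank k ↥(W ⊓ LinearMap.ker g) = finrank k W := by
  have h := (g ∘ₗ W.subtype).finrank_range_add_finrank_ker
  rw [LinearMap.range_comp, Submodule.range_subtype, LinearMap.ker_comp,
    ← Submodule.finrank_map_subtype_eq W, Submodule.map_comap_subtype] at h
  exact h

theorem key_mk (y : End k V) (K : Submodule k V) :
    finrank k ↥(K ⊓ K.comap y) + finrank k ↥(K ⊔ K.map y) = 2 * finrank k K := by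
  have h1 := rn_mk (K.mkQ ∘ₗ y) K
  have h2 := rn_mk K.mkQ (K ⊔ K.map y)
  rw [LinearMap.ker_comp, Submodule.ker_mkQ, Submodule.map_comp] at h1
  rw [Submodule.ker_mkQ, inf_of_le_right le_sup_left, Submodule.map_sup, Submodule.mkQ_map_self,
    bot_sup_eq] at h2
  omega

theorem maxrank [Infinite k] (N : Submodule k (End k V)) (r : ℕ)
    (hr : ∀ Z ∈ N, finrank k (LinearMap.range Z) ≤ r) :
    ∃ K I : Submodule k V, N ≤ cm K I ∧ finrank k I + finrank k V ≤ 2 * r + finrank k K := by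
  obtain ⟨Z0, hZ0, hmax⟩ := ex_min_mk (fun Z => Z ∈ N)
    (fun Z => r - finrank k (LinearMap.range Z)) ⟨0, N.zero_mem⟩
  have hrn := Z0.finrank_range_add_finrank_ker
  have h0 := hr Z0 hZ0
  refine ⟨LinearMap.ker Z0, LinearMap.range Z0, fun Z hZ v hv => ?_, by omega⟩
  by_contra hn
  obtain ⟨M, hM⟩ := Submodule.exists_isCompl (LinearMap.ker Z0)
  have inj : Function.Injective
      ((Z0 ∘ₗ M.subtype).coprod (LinearMap.toSpanSingleton k V (Z v))) := by
    rw [injective_iff_map_eq_zero]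
    rintro ⟨m, c⟩ e
    simp only [LinearMap.coprod_apply, LinearMap.comp_apply, Submodule.subtype_apply,
      LinearMap.toSpanSingleton_apply] at e
    have hc : c = 0 := by
      by_contra hc
      refine hn ⟨-(c⁻¹ • (m : V)), ?_⟩
      rw [map_neg, map_smul, eq_neg_of_add_eq_zero_left e, smul_neg, neg_neg, smul_smul,
        inv_mul_cancel₀ hc, one_smul]
    rw [hc, zero_smul, add_zero] at e
    exact Prod.ext (Subtype.ext (Submodule.disjoint_def.1 hM.disjoint _ e m.2)) hc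
  obtain ⟨t, ht, hinj⟩ := GI _ ((Z ∘ₗ M.subtype).coprod 0) inj
  have h1 := LinearMap.finrank_range_of_inj hinj
  have h2 : LinearMap.range ((Z0 ∘ₗ M.subtype).coprod (LinearMap.toSpanSingleton k V (Z v)) +
      t • (Z ∘ₗ M.subtype).coprod (0 : k →ₗ[k] V)) ≤ LinearMap.range (Z0 + t • Z) := by
    rintro _ ⟨⟨m, c⟩, rfl⟩
    refine ⟨m + (c * t⁻¹) • v, ?_⟩
    have hv' : Z0 v = 0 := hv
    simp only [LinearMap.add_apply, LinearMap.smul_apply, map_add, map_smul, hv',
      LinearMap.coprod_apply, LinearMap.comp_apply, Submodule.subtype_apply,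
      LinearMap.toSpanSingleton_apply, LinearMap.zero_apply, add_zero, zero_add, smul_smul]
    rw [inv_mul_cancel_right₀ ht]
    abel
  have h3 := Submodule.finrank_mono h2
  have hm := N.add_mem hZ0 (N.smul_mem t hZ)
  have h4 := hmax _ hm
  have h5 := hr _ hm
  have h6 := Submodule.finrank_add_eq_of_isCompl hM
  rw [h1, Module.finrank_prod, Module.finrank_self] at h3
  omega

theorem invmin (h N : Submodule k (End k V)) (hN : ∀ y ∈ h, ∀ Z ∈ N, y * Z - Z * y ∈ N)
    (K0 I0 : Submodule k V) (h0 : N ≤ cm K0 I0) :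
    ∃ K I : Submodule k V, N ≤ cm K I ∧ h ≤ cm K K ∧ h ≤ cm I I ∧
      finrank k I + finrank k K0 ≤ finrank k I0 + finrank k K := by
  obtain ⟨⟨K1, I1⟩, h1, m1⟩ := ex_min_mk (fun p : Submodule k V × Submodule k V => N ≤ cm p.1 p.2)
    (fun p => finrank k p.2 + (finrank k V - finrank k p.1)) ⟨(K0, I0), h0⟩
  obtain ⟨⟨K, I⟩, ⟨h2, e2⟩, m2⟩ := ex_min_mk (fun p : Submodule k V × Submodule k V =>
    N ≤ cm p.1 p.2 ∧ finrank k p.2 + (finrank k V - finrank k p.1) ≤
      finrank k I1 + (finrank k V - finrank k K1))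
    (fun p => finrank k V - finrank k p.1) ⟨(K1, I1), h1, le_rfl⟩
  simp only at h2 e2 m1 m2
  have key : ∀ y ∈ h, y ∈ cm K K ∧ y ∈ cm I I := by
    intro y hy
    have A : N ≤ cm (K ⊓ K.comap y) (I ⊓ I.comap y) := by
      intro Z hZ v hv
      refine ⟨h2 hZ v hv.1, ?_⟩
      have e : y (Z v) = (y * Z - Z * y) v + Z (y v) := by simp
      change y (Z v) ∈ I
      rw [e]
      exact I.add_mem (h2 (hN y hy Z hZ) v hv.1) (h2 hZ _ hv.2)
    have B : N ≤ cm (K ⊔ K.map y) (I ⊔ I.map y) := by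
      intro Z hZ v hv
      obtain ⟨a, ha, _, ⟨b, hb, rfl⟩, rfl⟩ := Submodule.mem_sup.1 hv
      have e : Z (a + y b) = (Z a - (y * Z - Z * y) b) + y (Z b) := by
        simp only [map_add, LinearMap.sub_apply, Module.End.mul_apply]
        abel
      rw [e]
      exact Submodule.add_mem_sup (I.sub_mem (h2 hZ a ha) (h2 (hN y hy Z hZ) b hb))
        ⟨_, h2 hZ b hb, rfl⟩
    have a1 := m1 (_, _) A
    have a2 := m1 (_, _) B
    have a3 := fun c => m2 (_, _) ⟨B, c⟩
    have k1 := key_mk y K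
    have k2 := key_mk y I
    have l1 := Submodule.finrank_le (K ⊔ K.map y)
    have l2 := Submodule.finrank_mono (le_sup_left : K ≤ K ⊔ K.map y)
    have l3 := Submodule.finrank_mono (le_sup_left : I ≤ I ⊔ I.map y)
    simp only at a1 a2 a3
    have a4 := a3 (by omega)
    have eK := Submodule.eq_of_le_of_finrank_le (le_sup_left : K ≤ K ⊔ K.map y) (by omega)
    have eI := Submodule.eq_of_le_of_finrank_le (le_sup_left : I ≤ I ⊔ I.map y) (by omega)
    exact ⟨fun v hv => eK.ge (Submodule.mem_sup_right ⟨v, hv, rfl⟩),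
      fun v hv => eI.ge (Submodule.mem_sup_right ⟨v, hv, rfl⟩)⟩
  refine ⟨K, I, h2, fun y hy => (key y hy).1, fun y hy => (key y hy).2, ?_⟩
  have a0 := m1 (K0, I0) h0
  have l1 := Submodule.finrank_le K
  have l2 := Submodule.finrank_le K0
  simp only at a0
  omega

end Pool.Agent.P.MP_def758_al
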