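import Pool.Agent.P.MP_def758_al.CentB
import Pool.Agent.P.MP_def758_al.MinK
import Pool.Agent.P.MP_def758_al.Lin

namespace Pool.Agent.P.MP_def758_al

open Module

variable {k : Type*} [Field k] {V : Type*} [AddCommGroup V] [Module k V] [FiniteDimensional k V]

variable (k V) in
/-- the trace form -/
noncomputable def trF : LinearMap.BilinForm k (End k V) :=
  (LinearMap.mul k (End k V)).compr₂ (LinearMap.trace k V)

omit [FiniteDimensional k V] in
theorem trF_apply (A B : End k V) : trF k V A B = LinearMap.trace k V (A * B) := rfl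

theorem trF_sep (A : End k V) (h : ∀ B, LinearMap.trace k V (A * B) = 0) : A = 0 := by
  ext v
  rw [LinearMap.zero_apply, ← forall_dual_apply_eq_zero_iff k]
  intro φ
  have := h (φ.smulRight v)
  have e : A * φ.smulRight v = φ.smulRight (A v) := by ext w; simp
  rwa [e, LinearMap.trace_smulRight] at this

theorem trF_nondeg : (trF k V).Nondegenerate :=
  ⟨fun A h => trF_sep A h, fun A h => trF_sep A fun B => by
    rw [LinearMap.trace_mul_comm]; exact h B⟩

omit [FiniteDimensional k V] in
theorem trF_refl : (trF k V).IsRefl := fun A B h => by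
  rw [trF_apply, LinearMap.trace_mul_comm]; exact h

theorem rk_add (A B : End k V) : finrank k (LinearMap.range (A + B)) ≤
    finrank k (LinearMap.range A) + finrank k (LinearMap.range B) :=
  (Submodule.finrank_mono (LinearMap.range_add_le A B)).trans
    (Submodule.finrank_add_le_finrank_add_finrank _ _)

theorem rk_smul (c : k) (A : End k V) : finrank k (LinearMap.range (c • A)) ≤
    finrank k (LinearMap.range A) :=
  Submodule.finrank_mono (by rintro _ ⟨v, rfl⟩; exact ⟨c • v, by simp⟩)

theorem rk_sub (A B : End k V) : finrank k (LinearMap.range (A - B)) ≤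
    finrank k (LinearMap.range A) + finrank k (LinearMap.range B) := by
  have h1 := rk_add A ((-1 : k) • B)
  have h2 := rk_smul (-1 : k) B
  rw [neg_one_smul, ← sub_eq_add_neg] at h1
  rw [neg_one_smul] at h2
  omega

theorem rk_mul_right (A B : End k V) : finrank k (LinearMap.range (A * B)) ≤
    finrank k (LinearMap.range A) :=
  Submodule.finrank_mono (by rintro _ ⟨v, rfl⟩; exact ⟨B v, rfl⟩)

theorem rk_mul_left (A B : End k V) : finrank k (LinearMap.range (A * B)) ≤
    finrank k (LinearMap.range B) := by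
  rw [Module.End.mul_eq_comp, LinearMap.range_comp]
  exact Submodule.finrank_map_le _ _

omit [FiniteDimensional k V] in
theorem rk_one {c : k} (hc : c ≠ 0) :
    finrank k (LinearMap.range (c • (1 : End k V))) = finrank k V := by
  have : LinearMap.range (c • (1 : End k V)) = ⊤ :=
    LinearMap.range_eq_top.2 fun v => ⟨c⁻¹ • v, by simp [smul_smul, hc]⟩
  rw [this, finrank_top]

theorem le_cent (h N : Submodule k (End k V)) (Z : End k V)
    (hZ : ∀ A ∈ h, A * Z - Z * A ∈ N) : finrank k h ≤ finrank k (cent Z) + finrank k N := by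
  let φ : h →ₗ[k] End k V := (LinearMap.mulRight k Z - LinearMap.mulLeft k Z).domRestrict h
  have h1 := φ.finrank_range_add_finrank_ker
  have h2 : finrank k (LinearMap.range φ) ≤ finrank k N :=
    Submodule.finrank_mono (by rintro _ ⟨A, rfl⟩; exact hZ A A.2)
  have h3 : finrank k ((LinearMap.ker φ).map h.subtype) ≤ finrank k (cent Z) :=
    Submodule.finrank_mono (by
      rintro _ ⟨A, hA, rfl⟩
      exact sub_eq_zero.1 hA)
  rw [Submodule.finrank_map_subtype_eq] at h3
  omega

theorem lemA [IsAlgClosed k] (h : Submodule k (End k V)) (hh : LieC h) (d r : ℕ)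
    (hd : finrank k V * finrank k V ≤ finrank k h + d) (h1 : 2 * d < finrank k V * (r + 1))
    (h2 : 3 * r < finrank k V) :
    ∃ I C : Submodule k V, h ≤ cm I I ∧ h ≤ cm C C ∧
      finrank k I + finrank k V ≤ 2 * r + finrank k C ∧ cm I ⊥ ⊓ cm ⊤ C ⊓ tr0 k V ≤ h := by
  set N := (trF k V).orthogonal h with hN
  have dN : finrank k N ≤ d := by
    rw [hN, LinearMap.BilinForm.finrank_orthogonal trF_nondeg, finrank_End]
    omega
  have br : ∀ Z ∈ N, ∀ A ∈ h, A * Z - Z * A ∈ N := fun Z hZ A hA B hB => by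
    have := hZ _ (hh B hB A hA)
    rw [trF_apply, sub_mul, map_sub] at this
    rw [trF_apply, mul_sub, map_sub, ← mul_assoc, ← mul_assoc,
      LinearMap.trace_mul_comm k (B * Z), ← mul_assoc]
    exact this
  have ev : ∀ Z ∈ N, ∃ a : k, finrank k (LinearMap.range (Z - a • 1)) ≤ r := fun Z hZ => by
    by_contra hc
    push Not at hc
    have e1 := cent_bound Z (finrank k V - (r + 1)) fun a => by
      have := hc a
      have := (Z - a • (1 : End k V)).finrank_range_add_finrank_ker
      omega
    have e2 := le_cent h N Z (br Z hZ)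
    have e3 : finrank k V * (finrank k V - (r + 1)) + finrank k V * (r + 1) =
        finrank k V * finrank k V := by
      rw [← mul_add, Nat.sub_add_cancel (by omega)]
    omega
  have trick : ∀ (Z : End k V) (b : k), Z + b • 1 ∈ N →
      finrank k (LinearMap.range Z) ≤ r + r → finrank k (LinearMap.range Z) ≤ r := by
    intro Z b hZ hr
    obtain ⟨a, ha⟩ := ev _ hZ
    by_cases hab : b - a = 0
    · have : Z + b • 1 - a • 1 = Z := by rw [add_sub_assoc, ← sub_smul, hab, zero_smul, add_zero]
      rwa [this] at ha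
    · have e1 := rk_sub (Z + b • 1 - a • 1) Z
      have : Z + b • 1 - a • 1 - Z = (b - a) • 1 := by rw [sub_smul]; abel
      rw [this, rk_one hab] at e1
      omega
  let N' : Submodule k (End k V) :=
    { carrier := {Z | (∃ b : k, Z + b • 1 ∈ N) ∧ finrank k (LinearMap.range Z) ≤ r}
      zero_mem' := ⟨⟨0, by simp⟩, by rw [LinearMap.range_zero, finrank_bot]; omega⟩
      add_mem' := fun {A B} ⟨⟨a, ha⟩, ra⟩ ⟨⟨b, hb⟩, rb⟩ => by
        have e : A + B + (a + b) • 1 ∈ N := by
          have := N.add_mem ha hb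
          rwa [add_add_add_comm, ← add_smul] at this
        exact ⟨⟨_, e⟩, trick _ _ e ((rk_add A B).trans (add_le_add ra rb))⟩
      smul_mem' := fun c A ⟨⟨a, ha⟩, ra⟩ =>
        ⟨⟨c * a, by rw [mul_smul, ← smul_add]; exact N.smul_mem c ha⟩, (rk_smul c A).trans ra⟩ }
  obtain ⟨K0, I0, k0, d0⟩ := maxrank N' r fun Z hZ => hZ.2
  obtain ⟨C, I, k1, hC, hI, d1⟩ := invmin h N' (fun y hy Z ⟨⟨b, hb⟩, rb⟩ => by
    have e : y * Z - Z * y + (0 : k) • 1 ∈ N := by
      have := br _ hb y hy
      simpa [mul_add, add_mul] using this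
    refine ⟨⟨_, e⟩, trick _ _ e ((rk_sub _ _).trans (add_le_add ?_ ?_))⟩
    · exact (rk_mul_left _ _).trans rb
    · exact (rk_mul_right _ _).trans rb) K0 I0 k0
  refine ⟨I, C, hI, hC, by omega, fun X ⟨⟨x1, x2⟩, x3⟩ => ?_⟩
  rw [← LinearMap.BilinForm.orthogonal_orthogonal trF_nondeg trF_refl h]
  intro Z hZ
  obtain ⟨a, ha⟩ := ev Z hZ
  have hZ' : Z - a • 1 ∈ N' := ⟨⟨a, by rwa [sub_add_cancel]⟩, ha⟩
  have nil : IsNilpotent ((Z - a • 1) * X) := ⟨2, by
    ext v
    have e1 : X ((Z - a • (1 : End k V)) (X v)) = 0 := x1 _ (k1 hZ' _ (x2 v trivial))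
    rw [pow_two]
    simp only [Module.End.mul_apply, e1, map_zero, LinearMap.zero_apply]⟩
  have t := (LinearMap.isNilpotent_trace_of_isNilpotent nil).eq_zero
  rw [sub_mul, map_sub, smul_mul_assoc, one_mul, map_smul, mem_tr0.1 x3, smul_zero,
    sub_zero] at t
  exact t

end Pool.Agent.P.MP_def758_al
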