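import Pool.Agent.P.MP_def758_al.Defs

namespace Pool.Agent.P.MP_def758_al

open Module

variable {k : Type*} [Field k] {V : Type*} [AddCommGroup V] [Module k V] [FiniteDimensional k V]

omit [FiniteDimensional k V] in
theorem LieC.inf_cm {h : Submodule k (End k V)} (hh : LieC h) (Y : Submodule k V) :
    LieC (h ⊓ cm Y Y) := by
  intro A hA B hB
  exact ⟨hh A hA.1 B hB.1, fun v hv => Y.sub_mem (hA.2 _ (hB.2 v hv)) (hB.2 _ (hA.2 v hv))⟩

theorem rq_rank {M : Type*} [AddCommGroup M] [Module k M] {h K : Submodule k (End k V)}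
    (f : h →ₗ[k] M) {R : Submodule k M} (h1 : LinearMap.range f = R)
    (h2 : ∀ A : h, f A = 0 ↔ A.1 ∈ K) : finrank k h = finrank k R + finrank k ↥(h ⊓ K) := by
  have e : LinearMap.ker f = K.comap h.subtype := Submodule.ext h2
  rw [← LinearMap.finrank_range_add_finrank_ker f, h1, e, ← Submodule.map_comap_subtype,
    Submodule.finrank_map_subtype_eq]

theorem finrank_res {W : Submodule k V} {h : Submodule k (End k V)} (hW : h ≤ cm W W) :
    finrank k h = finrank k (res W h) + finrank k ↥(h ⊓ cm W ⊥) := by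
  let f : h →ₗ[k] End k W :=
    { toFun := fun A => A.1.restrict (hW A.2)
      map_add' := fun _ _ => LinearMap.ext fun _ => rfl
      map_smul' := fun _ _ => LinearMap.ext fun _ => rfl }
  refine rq_rank f ?_ fun A => ?_
  · ext B
    exact ⟨fun ⟨A, e⟩ => ⟨A.1, A.2, fun w => e ▸ rfl⟩,
      fun ⟨A, hA, e⟩ => ⟨⟨A, hA⟩, LinearMap.ext fun w => Subtype.ext (e w).symm⟩⟩
  · exact ⟨fun e v hv => congrArg Subtype.val (LinearMap.congr_fun e ⟨v, hv⟩),
      fun e => LinearMap.ext fun w => Subtype.ext (e w.1 w.2)⟩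

omit [FiniteDimensional k V] in
theorem res_lie (W : Submodule k V) {h : Submodule k (End k V)} (hh : LieC h) :
    LieC (res W h) := by
  rintro B ⟨A, hA, e⟩ B' ⟨A', hA', e'⟩
  exact ⟨_, hh A hA A' hA', fun w => by simp [e, e']⟩

omit [FiniteDimensional k V] in
theorem res_sup_top {W : Submodule k V} {h E : Submodule k (End k V)} (hh : h ≤ cm W W)
    (hE : E ≤ cm W W) (hs : cm W W ≤ h ⊔ E) : res W h ⊔ res W E = ⊤ := by
  refine eq_top_iff.2 fun B _ => ?_
  obtain ⟨A, hA⟩ := (W.subtype ∘ₗ B).exists_extend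
  have e : ∀ w : W, A w = B w := fun w => LinearMap.congr_fun hA w
  obtain ⟨A1, h1, A2, h2, e'⟩ := Submodule.mem_sup.1
    (hs (show A ∈ cm W W from fun v hv => (e ⟨v, hv⟩).symm ▸ (B ⟨v, hv⟩).2))
  refine Submodule.mem_sup.2 ⟨A1.restrict (hh h1), ⟨A1, h1, fun _ => rfl⟩, A2.restrict (hE h2),
    ⟨A2, h2, fun _ => rfl⟩, LinearMap.ext fun w => Subtype.ext ?_⟩
  rw [← e, ← e']
  rfl

omit [FiniteDimensional k V] in
theorem res_le_cm (W : Submodule k V) {E : Submodule k (End k V)} {Y U : Submodule k V}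
    (hE : E ≤ cm Y U) : res W E ≤ cm (Y.comap W.subtype) (U.comap W.subtype) := by
  rintro B ⟨A, hA, e⟩ w hw
  show (B w : V) ∈ U
  rw [e]
  exact hE hA _ hw

omit [FiniteDimensional k V] in
theorem finrank_comap_subtype (W Z : Submodule k V) :
    finrank k (Z.comap W.subtype) = finrank k ↥(W ⊓ Z) := by
  rw [← Submodule.map_comap_subtype, Submodule.finrank_map_subtype_eq]

theorem finrank_quo {N : Submodule k V} {h : Submodule k (End k V)} (hN : h ≤ cm N N) :
    finrank k h = finrank k (quo N h) + finrank k ↥(h ⊓ cm ⊤ N) := by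
  let f : h →ₗ[k] End k (V ⧸ N) :=
    { toFun := fun A => N.mapQ N A.1 (hN A.2)
      map_add' := fun _ _ => N.linearMap_qext (LinearMap.ext fun _ => rfl)
      map_smul' := fun _ _ => N.linearMap_qext (LinearMap.ext fun _ => rfl) }
  refine rq_rank f ?_ fun A => ?_
  · ext B
    exact ⟨fun ⟨A, e⟩ => ⟨A.1, A.2, fun w => e ▸ rfl⟩,
      fun ⟨A, hA, e⟩ => ⟨⟨A, hA⟩, N.linearMap_qext (LinearMap.ext fun w => (e w).symm)⟩⟩
  · exact ⟨fun e v _ => (Submodule.Quotient.mk_eq_zero N).1 (LinearMap.congr_fun e (N.mkQ v)),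
      fun e => N.linearMap_qext (LinearMap.ext fun w =>
        (Submodule.Quotient.mk_eq_zero N).2 (e w trivial))⟩

omit [FiniteDimensional k V] in
theorem quo_lie (N : Submodule k V) {h : Submodule k (End k V)} (hh : LieC h) :
    LieC (quo N h) := by
  rintro B ⟨A, hA, e⟩ B' ⟨A', hA', e'⟩
  refine ⟨_, hh A hA A' hA', fun w => ?_⟩
  simp only [LinearMap.sub_apply, End.mul_apply, e, e', map_sub]

omit [FiniteDimensional k V] in
theorem quo_sup_top {N : Submodule k V} {h E : Submodule k (End k V)} (hh : h ≤ cm N N)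
    (hE : E ≤ cm N N) (hs : cm N N ≤ h ⊔ E) : quo N h ⊔ quo N E = ⊤ := by
  refine eq_top_iff.2 fun B _ => ?_
  obtain ⟨g, hg⟩ := N.mkQ.exists_rightInverse_of_surjective N.range_mkQ
  have e : ∀ w, N.mkQ (g w) = w := fun w => LinearMap.congr_fun hg w
  obtain ⟨A1, h1, A2, h2, e'⟩ := Submodule.mem_sup.1
    (hs (show g ∘ₗ B ∘ₗ N.mkQ ∈ cm N N from fun v hv => by
      simp [(Submodule.Quotient.mk_eq_zero N).2 hv]))
  refine Submodule.mem_sup.2 ⟨N.mapQ N A1 (hh h1), ⟨A1, h1, fun _ => rfl⟩, N.mapQ N A2 (hE h2),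
    ⟨A2, h2, fun _ => rfl⟩, N.linearMap_qext (LinearMap.ext fun w => ?_)⟩
  exact (congrArg N.mkQ (LinearMap.congr_fun e' w)).trans (e _)

omit [FiniteDimensional k V] in
theorem quo_le_cm (N : Submodule k V) {E : Submodule k (End k V)} {Y U : Submodule k V}
    (hE : E ≤ cm Y U) : quo N E ≤ cm (Y.map N.mkQ) (U.map N.mkQ) := by
  rintro B ⟨A, hA, e⟩ _ ⟨v, hv, rfl⟩
  exact ⟨A v, hE hA v hv, (e v).symm⟩

theorem finrank_map_mkQ {N X : Submodule k V} (h : N ≤ X) :
    finrank k (X.map N.mkQ) + finrank k N = finrank k X := by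
  have := LinearMap.finrank_range_add_finrank_ker (N.mkQ ∘ₗ X.subtype)
  rwa [LinearMap.range_comp, Submodule.range_subtype, LinearMap.ker_comp, Submodule.ker_mkQ,
    finrank_comap_subtype, inf_eq_right.2 h] at this

omit [FiniteDimensional k V] in
theorem map_mkQ_inf {N X Y : Submodule k V} (hY : N ≤ Y) :
    (X ⊓ Y).map N.mkQ = X.map N.mkQ ⊓ Y.map N.mkQ := by
  refine le_antisymm (Submodule.map_inf_le _) ?_
  rintro _ ⟨⟨x, hx, rfl⟩, y, hy, e⟩
  refine ⟨x, ⟨hx, ?_⟩, rfl⟩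
  have := Y.sub_mem hy (hY ((Submodule.Quotient.eq N).1 e))
  rwa [sub_sub_cancel] at this

end Pool.Agent.P.MP_def758_al
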