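import Pool.Agent.P.MP_def758_al.Lev2
import Pool.Agent.P.MP_def758_al.Gap
import Pool.Agent.P.MP_def758_al.ResQuo

namespace Pool.Agent.P.MP_def758_al

open Module

variable {k : Type*} [Field k] {V : Type*} [AddCommGroup V] [Module k V] [FiniteDimensional k V]

theorem lev1 [IsAlgClosed k] (hV : finrank k V = 62) (K N1 N2 N3 N4 N5 N6 : Submodule k V)
    (hK : finrank k K = 4) (h1 : finrank k N1 = 54) (h2 : finrank k N2 = 54)
    (h3 : finrank k N3 = 54) (h4 : finrank k N4 = 58) (h5 : finrank k N5 = 60)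
    (h6 : finrank k N6 = 61) (h0 : finrank k ↥(N1 ⊓ N2 ⊓ N3 ⊓ N4 ⊓ N5 ⊓ N6) = 31)
    (hK1 : K ⊓ N1 = ⊥) (hK2 : K ⊓ N2 = ⊥) (hK3 : K ⊓ N3 = ⊥) (hK4 : K ⊓ N4 = ⊥)
    (hK56 : K ⊔ N5 ⊓ N6 = ⊤)
    (h E : Submodule k (End k V)) (hh : LieC h) (hE : h ⊔ E = ⊤) (d1 : 1941 ≤ finrank k h)
    (d2 : finrank k h ≤ 1942) (sK : E ≤ cm K K)
    (s1 : E ≤ cm N1 N1) (s2 : E ≤ cm N2 N2) (s3 : E ≤ cm N3 N3) (s4 : E ≤ cm N4 N4)
    (s5 : E ≤ cm N5 N5) (s6 : E ≤ cm N6 N6) : False := by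
  set N := N1 ⊓ N2 ⊓ N3 ⊓ N4 ⊓ N5 ⊓ N6 with hN
  have n1 : N ≤ N1 := fun v hv => hv.1.1.1.1.1
  have n2 : N ≤ N2 := fun v hv => hv.1.1.1.1.2
  have n3 : N ≤ N3 := fun v hv => hv.1.1.1.2
  have n4 : N ≤ N4 := fun v hv => hv.1.1.2
  have n5 : N ≤ N5 := fun v hv => hv.1.2
  have n6 : N ≤ N6 := fun v hv => hv.2
  have sN : E ≤ cm N N :=
    le_cm_inf (le_cm_inf (le_cm_inf (le_cm_inf (le_cm_inf s1 s2) s3) s4) s5) s6
  have KN : K ⊓ N = ⊥ := eq_bot_iff.2 (hK1 ▸ inf_le_inf_left K n1)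
  have dQ : finrank k (V ⧸ N) = 31 := by
    have := N.finrank_quotient_add_finrank
    omega
  have mq : ∀ {X : Submodule k V}, N ≤ X → finrank k (X.map N.mkQ) + 31 = finrank k X :=
    fun hX => h0 ▸ finrank_map_mkQ hX
  have mN : N.map N.mkQ = ⊥ := Submodule.mkQ_map_self N
  have mT : (⊤ : Submodule k V).map N.mkQ = ⊤ := by rw [Submodule.map_top, Submodule.range_mkQ]
  have q0 : finrank k (K.map N.mkQ) = 4 := by
    have e1 := mq (le_sup_right : N ≤ K ⊔ N)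
    have e2 := sup_inf_dim K N
    rw [Submodule.map_sup, mN, sup_bot_eq] at e1
    rw [KN, finrank_bot] at e2
    omega
  have qK : ∀ {X : Submodule k V}, N ≤ X → K ⊓ X = ⊥ →
      finrank k ↥(K.map N.mkQ ⊔ X.map N.mkQ) + 27 = finrank k X := fun {X} hX hKX => by
    have e1 := mq (hX.trans le_sup_right : N ≤ K ⊔ X)
    have e2 := sup_inf_dim K X
    rw [Submodule.map_sup] at e1
    rw [hKX, finrank_bot] at e2
    omega
  have q1 := mq n1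
  have q2 := mq n2
  have q3 := mq n3
  have q4 := mq n4
  have q5 := mq n5
  have q6 := mq n6
  have k1 := qK n1 hK1
  have k2 := qK n2 hK2
  have k3 := qK n3 hK3
  have k4 := qK n4 hK4
  have md : cm N N ≤ h ⊓ cm N N ⊔ E := by
    rw [sup_comm, ← sup_inf_assoc_of_le _ sN, sup_comm, hE, top_inf_eq]
  obtain ⟨dS, dr⟩ := lev2 dQ (K.map N.mkQ) (N1.map N.mkQ) (N2.map N.mkQ) (N3.map N.mkQ)
    (N4.map N.mkQ) (N5.map N.mkQ) (N6.map N.mkQ) q0 (by omega) (by omega) (by omega) (by omega)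
    (by omega) (by omega)
    (by rw [← map_mkQ_inf n2, ← map_mkQ_inf n3, ← map_mkQ_inf n4, ← map_mkQ_inf n5,
      ← map_mkQ_inf n6, mN])
    (by omega) (by omega) (by omega) (Submodule.eq_top_of_finrank_eq (by omega))
    (by rw [← map_mkQ_inf n6, ← Submodule.map_sup, hK56, mT])
    (quo N (h ⊓ cm N N)) (quo N E) (quo_lie N (hh.inf_cm N)) (quo_sup_top inf_le_right sN md)
    (quo_le_cm N sK) (quo_le_cm N s1) (quo_le_cm N s2) (quo_le_cm N s3) (quo_le_cm N s4)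
    (quo_le_cm N s5) (quo_le_cm N s6)
  have c1 := L4 hE sN
  have c2 := finrank_quo (inf_le_right : h ⊓ cm N N ≤ cm N N)
  have c3 := finrank_quo sN
  have c4 := Submodule.finrank_le (quo N (h ⊓ cm N N))
  rw [finrank_End, dQ] at c4
  rw [h0, hV] at c1
  set F := h ⊓ cm N N ⊓ cm ⊤ N with hF
  have dJ : finrank k ↥(cm K ⊥ ⊓ cm ⊤ N) ≤ 1798 := by
    have e1 := L3 (T := cm K ⊥ ⊓ cm ⊤ N) le_top bot_le inf_le_right inf_le_left
    have e2 : cm K ⊥ ⊓ cm ⊤ N ⊓ cm ⊤ ⊥ = ⊥ := by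
      rw [eq_bot_iff]
      rintro A ⟨-, x⟩
      rw [Submodule.mem_bot]
      ext v
      exact x v trivial
    rw [e2, finrank_bot, finrank_bot, finrank_top, hV, hK, h0] at e1
    omega
  have c5 := sup_inf_dim (F ⊓ cm K ⊥) (E ⊓ cm ⊤ N)
  have c6 : finrank k ↥(F ⊓ cm K ⊥ ⊔ E ⊓ cm ⊤ N) ≤ finrank k ↥(cm K ⊥ ⊓ cm ⊤ N) := by
    refine Submodule.finrank_mono (sup_le (le_inf inf_le_right (inf_le_left.trans inf_le_right))
      (le_inf ?_ inf_le_right))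
    rintro A ⟨x1, x2⟩ v hv
    rw [← KN]
    exact ⟨sK x1 v hv, x2 v trivial⟩
  have c7 : finrank k ↥(F ⊓ cm K ⊥ ⊓ (E ⊓ cm ⊤ N)) ≤ finrank k ↥(h ⊓ E) :=
    Submodule.finrank_mono (inf_le_inf (inf_le_left.trans (inf_le_left.trans inf_le_left))
      inf_le_left)
  have c8 := Submodule.finrank_sup_add_finrank_inf_eq h E
  rw [hE, finrank_top, finrank_End, hV] at c8
  obtain ⟨w, wK, w0, hw⟩ : ∃ w ∈ K, w ≠ 0 ∧ finrank k ↥(F ⊓ cm (k ∙ w) ⊥) + 3 < finrank k F := by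
    by_contra hc
    push Not at hc
    have := L7 F K 3 hc
    omega
  have wK' : k ∙ w ≤ K := (Submodule.span_singleton_le_iff_mem _ _).2 wK
  have wN : N ⊓ k ∙ w = ⊥ := eq_bot_iff.2 (KN ▸ le_inf (inf_le_right.trans wK') inf_le_left)
  have dw := finrank_span_singleton (K := k) w0
  have f1 := finrank_quo (inf_le_left.trans inf_le_right :
    h ⊓ cm N N ⊓ cm (k ∙ w) (k ∙ w) ≤ cm N N)
  have f2 := L4le (h ⊓ cm N N) (k ∙ w) (k ∙ w)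
  have f3 : finrank k ↥(h ⊓ cm N N ⊓ cm (k ∙ w) (k ∙ w) ⊓ cm ⊤ N) ≤
      finrank k ↥(F ⊓ cm (k ∙ w) ⊥) := by
    refine Submodule.finrank_mono ?_
    rintro A ⟨⟨x1, x2⟩, x3⟩
    refine ⟨⟨x1, x3⟩, fun v hv => ?_⟩
    rw [← wN]
    exact ⟨x3 v trivial, x2 v hv⟩
  have f4 := L2 N K wN
  have f5 := L4gen hE (le_inf sN (sK.trans (cm_mono wK' le_rfl)) : E ≤ cm N N ⊓ cm (k ∙ w) K)
  have f6 : finrank k ↥(h ⊓ cm N N ⊓ cm (k ∙ w) (k ∙ w)) ≤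
      finrank k ↥(h ⊓ (cm N N ⊓ cm (k ∙ w) K)) := by
    rw [← inf_assoc]
    exact Submodule.finrank_mono (inf_le_inf_left _ (cm_mono le_rfl wK'))
  rw [dw, hV] at f2
  rw [dw, hV, h0, hK] at f4
  rw [hV] at f5
  have w1 : N.mkQ w ≠ 0 := fun e => w0 (by
    have : w ∈ K ⊓ N := ⟨wK, (Submodule.Quotient.mk_eq_zero N).1 e⟩
    rwa [KN] at this)
  have g := gap dQ (quo N (h ⊓ cm N N ⊓ cm (k ∙ w) (k ∙ w)))
    (quo_lie N ((hh.inf_cm N).inf_cm _)) (N.mkQ w) w1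
    (by
      have := quo_le_cm N (inf_le_right : h ⊓ cm N N ⊓ cm (k ∙ w) (k ∙ w) ≤ _)
      rwa [Submodule.map_span, Set.image_singleton] at this) (by omega)
  omega

end Pool.Agent.P.MP_def758_al
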