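import Pool.Agent.P.MP_def758_al.LemA

namespace Pool.Agent.P.MP_def758_al

open Module

variable {k : Type*} [Field k] {V : Type*} [AddCommGroup V] [Module k V] [FiniteDimensional k V]

theorem subX {r S T : Submodule k (End k V)} {Y U : Submodule k V} (hrS : r ⊔ S = ⊤)
    (hY : r ≤ cm Y Y) (h1 : (1 : End k V) ∈ S) (hT : T ≤ S) (hTU : T ≤ cm ⊤ U) (hU : U ≠ ⊤)
    (δ : ℕ) (hδ : finrank k S ≤ finrank k T + δ) :
    finrank k Y * (finrank k V - (finrank k Y + finrank k U)) + 1 ≤ δ := by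
  have e1 := L4 (T := S) (S := r) (sup_comm r S ▸ hrS) (hY.trans (cm_mono le_rfl le_sup_left) :
    r ≤ cm Y (Y ⊔ U))
  have e2 : T < S ⊓ cm Y (Y ⊔ U) := by
    refine lt_of_le_of_ne (le_inf hT (hTU.trans (cm_mono le_top le_sup_right))) fun e => hU ?_
    have : (1 : End k V) ∈ T := e ▸ ⟨h1, fun v hv => Submodule.mem_sup_left hv⟩
    exact eq_top_iff.2 fun v hv => hTU this v hv
  have e3 := Submodule.finrank_lt_finrank_of_lt e2
  have e4 := Submodule.finrank_add_le_finrank_add_finrank Y U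
  have e5 : finrank k Y * (finrank k V - (finrank k Y + finrank k U)) ≤
      finrank k Y * (finrank k V - finrank k ↥(Y ⊔ U)) := Nat.mul_le_mul_left _ (by omega)
  omega

omit [FiniteDimensional k V] in
theorem le_cm_inf {T : Submodule k (End k V)} {A B A' B' : Submodule k V} (h : T ≤ cm A B)
    (h' : T ≤ cm A' B') : T ≤ cm (A ⊓ A') (B ⊓ B') :=
  fun _ hX v hv => ⟨h hX v hv.1, h' hX v hv.2⟩

omit [FiniteDimensional k V] in
theorem le_cm_sup {T : Submodule k (End k V)} {A B A' B' : Submodule k V} (h : T ≤ cm A B)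
    (h' : T ≤ cm A' B') : T ≤ cm (A ⊔ A') (B ⊔ B') := fun X hX v hv => by
  obtain ⟨a, ha, b, hb, rfl⟩ := Submodule.mem_sup.1 hv
  rw [map_add]
  exact Submodule.add_mem_sup (h hX a ha) (h' hX b hb)

theorem sup_inf_dim (A B : Submodule k V) : finrank k ↥(A ⊔ B) + finrank k ↥(A ⊓ B) =
    finrank k A + finrank k B ∧ finrank k ↥(A ⊔ B) ≤ finrank k V :=
  ⟨Submodule.finrank_sup_add_finrank_inf_eq A B, Submodule.finrank_le _⟩

theorem lev2_aux [IsAlgClosed k] (hV : finrank k V = 31) (K N1 N2 N3 N4 N5 N6 : Submodule k V)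
    (hK : finrank k K = 4) (h1 : finrank k N1 = 23) (h2 : finrank k N2 = 23)
    (h3 : finrank k N3 = 23) (h4 : finrank k N4 = 27) (h5 : finrank k N5 = 29)
    (h6 : finrank k N6 = 30) (h0 : N1 ⊓ N2 ⊓ N3 ⊓ N4 ⊓ N5 ⊓ N6 = ⊥)
    (hK1 : finrank k ↥(K ⊔ N1) = 27) (hK2 : finrank k ↥(K ⊔ N2) = 27)
    (hK3 : finrank k ↥(K ⊔ N3) = 27) (hK4 : K ⊔ N4 = ⊤) (hK56 : K ⊔ N5 ⊓ N6 = ⊤)
    (r S : Submodule k (End k V)) (hr : LieC r) (hrS : r ⊔ S = ⊤) (sK : S ≤ cm K K)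
    (s1 : S ≤ cm N1 N1) (s2 : S ≤ cm N2 N2) (s3 : S ≤ cm N3 N3) (s4 : S ≤ cm N4 N4)
    (s5 : S ≤ cm N5 N5) (s6 : S ≤ cm N6 N6) (one : (1 : End k V) ∈ S) :
    finrank k S ≤ 106 ∧ 960 ≤ finrank k r := by
  have hK5 : K ⊔ N5 = ⊤ := eq_top_iff.2 (hK56 ▸ sup_le_sup_left inf_le_left K)
  have hK6 : K ⊔ N6 = ⊤ := eq_top_iff.2 (hK56 ▸ sup_le_sup_left inf_le_right K)
  have a1 := sup_inf_dim N1 N2
  have a2 := sup_inf_dim (N1 ⊓ N2) N3
  have a3 := sup_inf_dim (N1 ⊓ N2 ⊓ N3) (N4 ⊓ (N5 ⊓ N6))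
  have e0 : N1 ⊓ N2 ⊓ N3 ⊓ (N4 ⊓ (N5 ⊓ N6)) = ⊥ := by rw [← h0]; simp only [inf_assoc]
  rw [e0, finrank_bot] at a3
  have a4 := sup_inf_dim N4 (N5 ⊓ N6)
  have a5 := sup_inf_dim N5 N6
  have a6 := sup_inf_dim (N4 ⊓ N6) N5
  have e1 : N4 ⊓ N6 ⊓ N5 = N4 ⊓ (N5 ⊓ N6) := by rw [inf_assoc, inf_comm N6]
  rw [e1] at a6
  have a7 := sup_inf_dim N4 N6
  have b1 := sup_inf_dim K N5
  have b2 := sup_inf_dim K N6
  have b3 := sup_inf_dim K (N5 ⊓ N6)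
  rw [hK5, finrank_top] at b1
  rw [hK6, finrank_top] at b2
  rw [hK56, finrank_top] at b3
  have b4 := sup_inf_dim (K ⊓ N5) (K ⊓ N6)
  have e2 : K ⊓ N5 ⊓ (K ⊓ N6) = K ⊓ (N5 ⊓ N6) := (inf_inf_distrib_left _ _ _).symm
  rw [e2] at b4
  have PH : K ⊓ N5 ⊔ K ⊓ N6 = K :=
    Submodule.eq_of_le_of_finrank_eq (sup_le inf_le_left inf_le_left) (by omega)
  have sP : S ≤ cm (K ⊓ N5) (K ⊓ N5) := le_cm_inf sK s5
  have sH : S ≤ cm (K ⊓ N6) (K ⊓ N6) := le_cm_inf sK s6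
  have zb : ∀ X : Submodule k (End k V), X ≤ cm ⊥ ⊥ := fun X A _ v hv => by
    rw [(Submodule.mem_bot k).1 hv, map_zero]; exact Submodule.zero_mem _
  set T := S ⊓ cm K ⊥ with hT
  have dST : finrank k S ≤ finrank k T + 10 := by
    have c1 := L3 bot_le bot_le sP (zb S)
    have c2 := L3 (T := S ⊓ cm (K ⊓ N5) ⊥) (Y1 := K ⊓ N6) (Y2 := K ⊓ N6) (U1 := K ⊓ (N5 ⊓ N6))
      (U2 := ⊥) (inf_le_inf_left _ inf_le_right) bot_le (inf_le_left.trans sH)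
      (inf_le_right.trans (cm_mono (inf_le_inf_left _ inf_le_left) le_rfl))
    have c3 : finrank k ↥(S ⊓ cm (K ⊓ N5) ⊥ ⊓ cm (K ⊓ N6) ⊥) ≤ finrank k T := by
      refine Submodule.finrank_mono (le_inf (inf_le_left.trans inf_le_left) ?_)
      have := le_cm_sup (T := S ⊓ cm (K ⊓ N5) ⊥ ⊓ cm (K ⊓ N6) ⊥)
        (inf_le_left.trans inf_le_right) inf_le_right
      rwa [PH, sup_idem] at this
    have f1 : finrank k ↥(K ⊓ N5) = 2 := by omega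
    have f2 : finrank k ↥(K ⊓ N6) = 3 := by omega
    have f3 : finrank k ↥(K ⊓ (N5 ⊓ N6)) = 1 := by omega
    rw [finrank_bot, f1] at c1
    rw [finrank_bot, f2, f3] at c2
    omega
  have tj : ∀ N : Submodule k V, S ≤ cm N N → T ≤ cm (K ⊔ N) N := fun N hN => by
    have := le_cm_sup (T := T) inf_le_right (inf_le_left.trans hN)
    rwa [bot_sup_eq] at this
  have t1 := tj _ s1
  have t2 := tj _ s2
  have t3 := tj _ s3
  have t4 := tj _ s4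
  have t5 := tj _ s5
  have t6 := tj _ s6
  rw [hK4] at t4
  rw [hK5] at t5
  rw [hK6] at t6
  have zt : ∀ X : Submodule k (End k V), X ≤ cm ⊤ ⊤ := fun X A _ v _ => trivial
  have dT : finrank k T ≤ 96 := by
    have c1 := L3 le_top le_top (zt T) t1
    have c2 := L3 le_top le_top (zt (T ⊓ cm ⊤ N1)) (inf_le_left.trans t2)
    have c3 := L3 le_top le_top (zt (T ⊓ cm ⊤ N1 ⊓ cm ⊤ N2))
      (inf_le_left.trans (inf_le_left.trans t3))
    have c4 : T ⊓ cm ⊤ N1 ⊓ cm ⊤ N2 ⊓ cm ⊤ N3 = ⊥ := by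
      rw [eq_bot_iff]
      rintro A ⟨⟨⟨x0, x1⟩, x2⟩, x3⟩
      rw [Submodule.mem_bot]
      ext v
      have : A v ∈ N1 ⊓ N2 ⊓ N3 ⊓ N4 ⊓ N5 ⊓ N6 := ⟨⟨⟨⟨⟨x1 v trivial, x2 v trivial⟩,
        x3 v trivial⟩, t4 x0 v trivial⟩, t5 x0 v trivial⟩, t6 x0 v trivial⟩
      rwa [h0] at this
    rw [c4, finrank_bot] at c3
    rw [finrank_top, hV] at c1 c2 c3
    rw [hK1, h1] at c1
    rw [hK2, h2] at c2
    rw [hK3, h3] at c3
    omega
  refine ⟨by omega, ?_⟩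
  have inv : ∀ Y : Submodule k V, r ≤ cm Y Y → finrank k Y = 0 ∨ finrank k Y = 31 := by
    intro Y hY
    by_contra hc
    have c0 := L4 (T := S) (S := r) (sup_comm r S ▸ hrS) hY
    have yle := Submodule.finrank_le Y
    have c1 := subX hrS hY one (T := T) inf_le_left (U := N4 ⊓ (N5 ⊓ N6))
      (by simpa using le_cm_inf t4 (le_cm_inf t5 t6))
      (fun e => by rw [e, finrank_top] at a3; omega) 10 dST
    have c2 := subX hrS hY one (T := S ⊓ cm K (K ⊓ N6)) inf_le_left (U := (K ⊓ N6 ⊔ N4) ⊓ N6)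
      (by
        have g1 := le_cm_sup (T := S ⊓ cm K (K ⊓ N6)) inf_le_right (inf_le_left.trans s4)
        have g2 := le_cm_sup (T := S ⊓ cm K (K ⊓ N6)) inf_le_right (inf_le_left.trans s6)
        rw [hK4] at g1
        rw [hK6, sup_eq_right.2 inf_le_right] at g2
        simpa using le_cm_inf g1 g2)
      (fun e => by
        have := Submodule.finrank_mono (inf_le_right : (K ⊓ N6 ⊔ N4) ⊓ N6 ≤ N6)
        rw [e, finrank_top] at this
        omega) 1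
      (by
        have := L3 inf_le_left inf_le_left sK sH
        have f2 : finrank k ↥(K ⊓ N6) = 3 := by omega
        rwa [hK, f2] at this)
    have a8 := sup_inf_dim (K ⊓ N6 ⊔ N4) N6
    have a9 := Submodule.finrank_add_le_finrank_add_finrank (K ⊓ N6) N4
    have a10 : finrank k ↥(N4 ⊔ N6) ≤ finrank k ↥(K ⊓ N6 ⊔ N4 ⊔ N6) :=
      Submodule.finrank_mono (sup_le_sup_right le_sup_right _)
    set U := (K ⊔ N1) ⊓ (K ⊔ N2) ⊓ (K ⊔ N3) with hU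
    have u1 := sup_inf_dim (K ⊔ N1) (K ⊔ N2)
    have u2 := sup_inf_dim ((K ⊔ N1) ⊓ (K ⊔ N2)) (K ⊔ N3)
    have u3 := sup_inf_dim Y U
    have c3 := L4 (T := S) (S := r) (sup_comm r S ▸ hrS)
      (hY.trans (cm_mono inf_le_left le_rfl) : r ≤ cm (Y ⊓ U) Y)
    have c4 : finrank k T ≤ finrank k ↥(S ⊓ cm (Y ⊓ U) Y) := by
      refine Submodule.finrank_mono (le_inf inf_le_left fun A x0 v hv => ?_)
      have : A v ∈ N1 ⊓ N2 ⊓ N3 ⊓ N4 ⊓ N5 ⊓ N6 := ⟨⟨⟨⟨⟨t1 x0 v hv.2.1.1, t2 x0 v hv.2.1.2⟩,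
        t3 x0 v hv.2.2⟩, t4 x0 v trivial⟩, t5 x0 v trivial⟩, t6 x0 v trivial⟩
      rw [h0, Submodule.mem_bot] at this
      rw [this]
      exact Y.zero_mem
    rw [← hU] at u2
    have f1 : finrank k ↥(N4 ⊓ (N5 ⊓ N6)) = 24 := by omega
    have f2 : finrank k ↥((K ⊓ N6 ⊔ N4) ⊓ N6) ≤ 29 := by omega
    have f3 : finrank k Y ≤ finrank k ↥(Y ⊓ U) + 12 := by omega
    have f4 : finrank k S ≤ 106 := by omega
    rw [hV] at c0 c1 c2 c3 yle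
    rw [f1] at c1
    generalize finrank k Y = y at *
    interval_cases y <;> omega
  have dr := Submodule.finrank_sup_add_finrank_inf_eq r S
  rw [hrS, finrank_top, finrank_End] at dr
  obtain ⟨I, C, hI, hC, d, hle⟩ := lemA r hr 106 6 (by omega) (by omega) (by omega)
  have i1 := inv I hI
  have i2 := inv C hC
  have i3 : I = ⊥ := Submodule.finrank_eq_zero.1 (by omega)
  have i4 : C = ⊤ := Submodule.eq_top_of_finrank_eq (by omega)
  subst i3 i4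
  have i5 := L6 (⊤ : Submodule k (End k V))
  have i6 : finrank k ↥(⊤ ⊓ tr0 k V) ≤ finrank k r :=
    Submodule.finrank_mono (le_trans (inf_le_inf_right _ (le_inf (zb _) (zt _))) hle)
  rw [finrank_top, finrank_End, hV] at i5
  omega

theorem lev2 [IsAlgClosed k] (hV : finrank k V = 31) (K N1 N2 N3 N4 N5 N6 : Submodule k V)
    (hK : finrank k K = 4) (h1 : finrank k N1 = 23) (h2 : finrank k N2 = 23)
    (h3 : finrank k N3 = 23) (h4 : finrank k N4 = 27) (h5 : finrank k N5 = 29)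
    (h6 : finrank k N6 = 30) (h0 : N1 ⊓ N2 ⊓ N3 ⊓ N4 ⊓ N5 ⊓ N6 = ⊥)
    (hK1 : finrank k ↥(K ⊔ N1) = 27) (hK2 : finrank k ↥(K ⊔ N2) = 27)
    (hK3 : finrank k ↥(K ⊔ N3) = 27) (hK4 : K ⊔ N4 = ⊤) (hK56 : K ⊔ N5 ⊓ N6 = ⊤)
    (r S : Submodule k (End k V)) (hr : LieC r) (hrS : r ⊔ S = ⊤) (sK : S ≤ cm K K)
    (s1 : S ≤ cm N1 N1) (s2 : S ≤ cm N2 N2) (s3 : S ≤ cm N3 N3) (s4 : S ≤ cm N4 N4)
    (s5 : S ≤ cm N5 N5) (s6 : S ≤ cm N6 N6) : finrank k S ≤ 106 ∧ 960 ≤ finrank k r := by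
  have o : ∀ {N : Submodule k V}, S ≤ cm N N → S ⊔ k ∙ 1 ≤ cm N N := fun hN =>
    sup_le hN ((Submodule.span_singleton_le_iff_mem _ _).2 fun v hv => hv)
  have := lev2_aux hV K N1 N2 N3 N4 N5 N6 hK h1 h2 h3 h4 h5 h6 h0 hK1 hK2 hK3 hK4 hK56 r
    (S ⊔ k ∙ 1) hr (by rw [← sup_assoc, hrS, top_sup_eq]) (o sK) (o s1) (o s2) (o s3) (o s4)
    (o s5) (o s6) (Submodule.mem_sup_right (Submodule.mem_span_singleton_self _))
  exact ⟨(Submodule.finrank_mono le_sup_left).trans this.1, this.2⟩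

end Pool.Agent.P.MP_def758_al
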