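import Pool.Agent.P.MP_def758_al.Lev1

namespace Pool.Agent.P.MP_def758_al

open Module

variable {k : Type*} [Field k] {V : Type*} [AddCommGroup V] [Module k V] [FiniteDimensional k V]

theorem levM [IsAlgClosed k] (hV : finrank k V = 2569) (Z0 Z1 Z2 Z3 Z4 Z5 Z6 : Submodule k V)
    (z0 : finrank k Z0 = 2511) (z1 : finrank k Z1 = 2561) (z2 : finrank k Z2 = 2561)
    (z3 : finrank k Z3 = 2561) (z4 : finrank k Z4 = 2565) (z5 : finrank k Z5 = 2567)
    (z6 : finrank k Z6 = 2568) (zN : finrank k ↥(Z1 ⊓ Z2 ⊓ Z3 ⊓ Z4 ⊓ Z5 ⊓ Z6) = 2538)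
    (z01 : finrank k ↥(Z0 ⊓ Z1) = 2503) (z02 : finrank k ↥(Z0 ⊓ Z2) = 2503)
    (z03 : finrank k ↥(Z0 ⊓ Z3) = 2503) (z04 : finrank k ↥(Z0 ⊓ Z4) = 2507)
    (z56 : finrank k ↥(Z5 ⊓ Z6) = 2566) (z056 : finrank k ↥(Z0 ⊓ (Z5 ⊓ Z6)) = 2508)
    (h l : Submodule k (End k V)) (hh : LieC h) (hl : h ⊔ l = ⊤)
    (hd : finrank k h + 157337 = 2569 * 2569) (s0 : l ≤ cm Z0 Z0)
    (s1 : l ≤ cm Z1 Z1) (s2 : l ≤ cm Z2 Z2) (s3 : l ≤ cm Z3 Z3) (s4 : l ≤ cm Z4 Z4)
    (s5 : l ≤ cm Z5 Z5) (s6 : l ≤ cm Z6 Z6)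
    (W : Submodule k V) (hW : finrank k W = 62) (hhW : h ≤ cm W W) : False := by
  obtain ⟨I, C, hI, hC, d, hle⟩ := lemA h hh 157337 122 (by rw [hV]; omega) (by rw [hV]; omega)
    (by rw [hV]; omega)
  have key : ∀ Y : Submodule k V, h ≤ cm Y Y →
      (finrank k Y - finrank k ↥(W ⊓ Y)) * (2569 - finrank k Y) ≤ 1903 := fun Y hY => by
    obtain ⟨Y', hY'⟩ := Submodule.exists_isCompl ((W ⊓ Y).comap Y.subtype)
    have e1 := Submodule.finrank_add_eq_of_isCompl hY'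
    rw [finrank_comap_subtype, ← inf_assoc, inf_comm Y W, inf_assoc, inf_idem] at e1
    have e2 : W ⊓ Y'.map Y.subtype = ⊥ := by
      rw [eq_bot_iff]
      rintro _ ⟨hw, y, hy, rfl⟩
      have : y ∈ (W ⊓ Y).comap Y.subtype ⊓ Y' := ⟨⟨hw, y.2⟩, hy⟩
      rw [hY'.inf_eq_bot, Submodule.mem_bot] at this
      simp [this]
    have e3 := L2 W Y e2
    have e4 : finrank k h ≤ finrank k ↥(cm W W ⊓ cm (Y'.map Y.subtype) Y) :=
      Submodule.finrank_mono (le_inf hhW (hY.trans (cm_mono (Submodule.map_subtype_le _ _) le_rfl)))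
    rw [Submodule.finrank_map_subtype_eq, hV, hW] at e3
    have e5 : finrank k Y - finrank k ↥(W ⊓ Y) = finrank k Y' := by omega
    rw [e5]
    omega
  have i1 := key I hI
  have i2 := key C hC
  have i3 := Submodule.finrank_le C
  have i4 : finrank k ↥(W ⊓ C) ≤ 62 := hW ▸ Submodule.finrank_mono inf_le_left
  have i5 : finrank k ↥(W ⊓ I) ≤ finrank k I := Submodule.finrank_mono inf_le_right
  rw [hV] at d i3
  have IW : I ≤ W := by
    have : finrank k I - finrank k ↥(W ⊓ I) = 0 := by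
      by_contra hc
      have := Nat.mul_le_mul (Nat.pos_of_ne_zero hc) (by omega : 2325 ≤ 2569 - finrank k I)
      omega
    rw [← inf_eq_right]
    exact Submodule.eq_of_le_of_finrank_eq inf_le_right (by omega)
  have CT : C = ⊤ := by
    have : 2569 - finrank k C = 0 := by
      by_contra hc
      have := Nat.mul_le_mul (by omega : 2263 ≤ finrank k C - finrank k ↥(W ⊓ C))
        (Nat.pos_of_ne_zero hc)
      omega
    exact Submodule.eq_top_of_finrank_eq (by omega)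
  have c1 := finrank_res hhW
  have c2 := finrank_cm W ⊥
  have c3 := L6 (cm W ⊥)
  have c4 : finrank k ↥(cm W ⊥ ⊓ tr0 k V) ≤ finrank k ↥(h ⊓ cm W ⊥) :=
    Submodule.finrank_mono (le_inf (le_trans (inf_le_inf_right _
      (le_inf (cm_mono IW le_rfl) (by rw [CT]; exact fun A _ v _ => trivial))) hle) inf_le_left)
  have c5 : finrank k ↥(h ⊓ cm W ⊥) ≤ finrank k (cm W ⊥) := Submodule.finrank_mono inf_le_right
  rw [finrank_bot, hW, hV] at c2
  have md : cm W W ≤ h ⊔ l ⊓ cm W W := by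
    rw [← sup_inf_assoc_of_le _ hhW, hl, top_inf_eq]
  have G : ∀ {Z : Submodule k V}, l ≤ cm Z Z →
      finrank k (Z.comap W.subtype) = 62 - (2569 - finrank k Z) := fun {Z} hZ => by
    rw [finrank_comap_subtype, L5 (sup_comm h l ▸ hl) hhW hZ, hW, hV]
  have S : ∀ {Z : Submodule k V}, l ≤ cm Z Z →
      res W (l ⊓ cm W W) ≤ cm (Z.comap W.subtype) (Z.comap W.subtype) := fun hZ =>
    res_le_cm W (inf_le_left.trans hZ)
  have B : ∀ {Z : Submodule k V}, l ≤ cm Z Z → finrank k ↥(Z0 ⊓ Z) ≤ 2507 →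
      Z0.comap W.subtype ⊓ Z.comap W.subtype = ⊥ := fun hZ hd => by
    have := G (le_cm_inf s0 hZ)
    rw [Submodule.comap_inf] at this
    exact Submodule.finrank_eq_zero.1 (by omega)
  have g0 := G s0
  have gN := G (le_cm_inf (le_cm_inf (le_cm_inf (le_cm_inf (le_cm_inf s1 s2) s3) s4) s5) s6)
  have g56 := G (le_cm_inf s5 s6)
  have g056 := G (le_cm_inf s0 (le_cm_inf s5 s6))
  rw [zN, Submodule.comap_inf, Submodule.comap_inf, Submodule.comap_inf, Submodule.comap_inf,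
    Submodule.comap_inf] at gN
  rw [z56, Submodule.comap_inf] at g56
  rw [z056, Submodule.comap_inf, Submodule.comap_inf] at g056
  have g7 := sup_inf_dim (Z0.comap W.subtype) (Z5.comap W.subtype ⊓ Z6.comap W.subtype)
  exact lev1 hW (Z0.comap W.subtype) (Z1.comap W.subtype) (Z2.comap W.subtype)
    (Z3.comap W.subtype) (Z4.comap W.subtype) (Z5.comap W.subtype) (Z6.comap W.subtype)
    (by omega) (by rw [G s1, z1]) (by rw [G s2, z2]) (by rw [G s3, z3]) (by rw [G s4, z4])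
    (by rw [G s5, z5]) (by rw [G s6, z6]) (by omega) (B s1 (by omega)) (B s2 (by omega))
    (B s3 (by omega)) (B s4 (by omega)) (Submodule.eq_top_of_finrank_eq (by omega))
    (res W h) (res W (l ⊓ cm W W)) (res_lie W hh) (res_sup_top hhW inf_le_right md) (by omega)
    (by omega) (S s0) (S s1) (S s2) (S s3) (S s4) (S s5) (S s6)

end Pool.Agent.P.MP_def758_al
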