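import Pool.Agent.P.MP_def758_al.Shift

namespace Pool.Agent.P.MP_def758_al

open Module Finset

variable {k : Type*} [Field k]

theorem mu_ge (j : Fin 4) : 6 ≤ mu j := by revert j; decide

/-- the long block of the chain `j` -/
def p0 (j : Fin 4) : PP := ⟨j, ⟨0, by have := mu_ge j; omega⟩⟩

/-- the short block of the chain `j` -/
def p1 (j : Fin 4) : PP := ⟨j, ⟨1, by have := mu_ge j; omega⟩⟩

variable (k) in
/-- the generators of `W` -/
def wv (p : PP) : Ix lam0 → k :=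
  Bv k lam0 p 0 + (if p.2.val = 0 then 0 else Bv k lam0 (p0 p.1) p.2.val) +
    if p.2.val = 1 ∧ p.1 ≠ 0 then Bv k lam0 (p0 0) (p.1.val + 1) else 0

/-- coordinates of the generators -/
def cw (q : PP) (m : ℕ) (p : PP) : ℕ :=
  (if q = p ∧ m = 0 ∧ m < lam0 q then 1 else 0) +
    (if p.2.val = 0 then 0 else if q = p0 p.1 ∧ m = p.2.val ∧ m < lam0 q then 1 else 0) +
    if p.2.val = 1 ∧ p.1 ≠ 0 then
      (if q = p0 0 ∧ m = p.1.val + 1 ∧ m < lam0 q then 1 else 0) else 0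

theorem map_ite' {M N : Type*} [AddCommGroup M] [Module k M] [AddCommGroup N] [Module k N]
    (A : M →ₗ[k] N) (c : Prop) [Decidable c] (x y : M) :
    A (if c then x else y) = if c then A x else A y := apply_ite A c x y

theorem co_wv (q : PP) (m : ℕ) (p : PP) : co k lam0 q m (wv k p) = cw q m p := by
  simp only [wv, cw, map_add, map_ite', co_Bv, map_zero, Nat.cast_add,
    Nat.cast_ite, Nat.cast_one, Nat.cast_zero]

theorem cw_zero : ∀ q p : PP, cw q 0 p = if q = p then 1 else 0 := by decide +kernel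

theorem cw_self : ∀ p : PP, cw (p0 p.1) p.2.val p = 1 := by decide +kernel

theorem cw_ne : ∀ q p : PP, p ≠ q → (q.1 ≠ 0 ∨ p.1 = 0) → cw (p0 q.1) q.2.val p = 0 := by
  decide +kernel

theorem comm_pow {V : Type*} [AddCommGroup V] [Module k V] {x X : End k V} (h : X ∈ cent x)
    (m : ℕ) (v : V) : X ((x ^ m) v) = (x ^ m) (X v) := by
  have : X * x ^ m = x ^ m * X := (Commute.pow_right (mem_cent.1 h) m).eq
  exact LinearMap.congr_fun this v

variable (k) in
/-- the subspace `W` -/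
def WW : Submodule k (Ix lam0 → k) := Submodule.span k (Set.range (wv k))

theorem eq_sum {w : Ix lam0 → k} (hw : w ∈ WW k) : w = ∑ p, co k lam0 p 0 w • wv k p := by
  obtain ⟨c, rfl⟩ := (Submodule.mem_span_range_iff_exists_fun k).1 hw
  refine sum_congr rfl fun q _ => ?_
  congr 1
  simp [map_sum, co_wv, cw_zero]

theorem inj82 {a : ℕ} (ha : a = 82) {w : Ix lam0 → k} (hw : w ∈ WW k)
    (h : (sh k lam0 ^ a) w = 0) : w = 0 := by
  obtain ⟨c, rfl⟩ := (Submodule.mem_span_range_iff_exists_fun k).1 hw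
  have key : ∀ q : PP, ∑ p, c p * (cw (p0 q.1) q.2.val p : k) = 0 := fun q => by
    have h1 := co_sh_pow lam0 a (p0 q.1) (q.2.val + a) (∑ p, c p • wv k p)
    have h2 : q.2.val + a < lam0 (p0 q.1) := by
      have := q.2.isLt
      change q.2.val + a < 82 + mu q.1
      omega
    rw [h, map_zero, if_pos ⟨by omega, h2⟩, Nat.add_sub_cancel, map_sum] at h1
    simpa [co_wv] using h1.symm
  have s1 : ∀ q : PP, q.1 ≠ 0 → c q = 0 := fun q hq => by
    have := key q
    rw [sum_eq_single q (fun p _ hp => by rw [cw_ne q p hp (Or.inl hq)]; simp) (by simp),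
      cw_self] at this
    simpa using this
  have s2 : ∀ q : PP, c q = 0 := fun q => by
    have := key q
    rw [sum_eq_single q (fun p _ hp => ?_) (by simp), cw_self] at this
    · simpa using this
    · by_cases h0 : p.1 = 0
      · rw [cw_ne q p hp (Or.inr h0)]; simp
      · rw [s1 p h0, zero_mul]
  simp [s2]

variable (k) in
/-- `t ^ m g_j` -/
def G (j : Fin 4) (m : ℕ) : Ix lam0 → k := Bv k lam0 (p0 j) m

theorem sh_G (a : ℕ) (j : Fin 4) (m : ℕ) : (sh k lam0 ^ a) (G k j m) = G k j (m + a) :=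
  sh_pow_Bv lam0 a _ m

theorem G_zero {j : Fin 4} {m : ℕ} (h : 82 + mu j ≤ m) : G k j m = 0 := Bv_eq_zero lam0 h

theorem co_G (i : Fin 4) (a : ℕ) (j : Fin 4) (m : ℕ) :
    co k lam0 (p0 i) a (G k j m) = if i = j ∧ a = m ∧ a < 82 + mu i then 1 else 0 := by
  have : p0 i = p0 j ↔ i = j := ⟨fun h => congrArg Sigma.fst h, fun h => h ▸ rfl⟩
  have e : lam0 (p0 i) = 82 + mu i := rfl
  simp only [G, co_Bv, this, e]

theorem sh_w1 (a : ℕ) (i : Fin 4) : (sh k lam0 ^ (81 + a)) (wv k (p1 i)) =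
    G k i (82 + a) + if i ≠ 0 then G k 0 (82 + a + i) else 0 := by
  have h1 : Bv k lam0 (p1 i) (81 + a) = 0 := Bv_eq_zero lam0 (by simp [lam0, p1])
  have e1 : (p1 i).2.val = 1 := rfl
  have e2 : (p1 i).1 = i := rfl
  simp only [wv, e1, e2, map_add, sh_pow_Bv, h1, one_ne_zero, if_false, true_and, zero_add,
    map_ite', map_zero, G]
  rw [show 1 + (81 + a) = 82 + a by omega, show i.val + 1 + (81 + a) = 82 + a + i by omega]

theorem sum_p1 (f : PP → Ix lam0 → k) (h : ∀ q : PP, q.2.val ≠ 1 → f q = 0) :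
    ∑ q, f q = ∑ j, f (p1 j) := by
  rw [Fintype.sum_sigma]
  refine sum_congr rfl fun j _ => ?_
  exact sum_eq_single (p1 j).2 (fun b _ hb => h _ fun e => hb (Fin.ext e))
    fun hh => (hh (mem_univ _)).elim

theorem K_inv {X : End k (Ix lam0 → k)} (h1 : X ∈ cent (sh k lam0)) (h2 : X ∈ cm (WW k) (WW k))
    (i : Fin 4) : X (wv k (p1 i)) = ∑ j, co k lam0 (p1 j) 0 (X (wv k (p1 i))) • wv k (p1 j) := by
  have hw : X (wv k (p1 i)) ∈ WW k := h2 _ (Submodule.subset_span ⟨_, rfl⟩)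
  refine (eq_sum hw).trans (sum_p1 _ fun q hq => ?_)
  obtain ⟨a, ha⟩ : ∃ a : ℕ, a = 81 := ⟨_, rfl⟩
  obtain ⟨b, hb⟩ : ∃ b : ℕ, b = 82 := ⟨_, rfl⟩
  have e1 : (sh k lam0 ^ a) (wv k (p1 i)) =
      (sh k lam0 ^ b) (G k i 0 + if i ≠ 0 then G k 0 i else 0) := by
    rw [map_add, map_ite', sh_G, sh_G, map_zero, add_comm i.val, ha, hb]
    exact sh_w1 0 i
  have e2 := co_sh_pow lam0 a q a (X (wv k (p1 i)))
  have e3 : a < lam0 q := by
    unfold lam0
    split_ifs <;> omega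
  rw [if_pos ⟨le_rfl, e3⟩, ← comm_pow h1, e1, comm_pow h1, co_sh_pow, if_neg (by omega),
    Nat.sub_self] at e2
  rw [← e2, zero_smul]

theorem kills {Y : End k (Ix lam0 → k)} (h1 : Y ∈ cent (sh k lam0)) (h2 : Y ∈ cm (WW k) (WW k))
    (h0 : co k lam0 (p1 0) 0 (Y (wv k (p1 0))) = 0) (i : Fin 4) : Y (wv k (p1 i)) = 0 := by
  have A : ∀ (a : ℕ) (i : Fin 4), Y (G k i (82 + a) + if i ≠ 0 then G k 0 (82 + a + i) else 0) =
      ∑ j, co k lam0 (p1 j) 0 (Y (wv k (p1 i))) •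
        (G k j (82 + a) + if j ≠ 0 then G k 0 (82 + a + j) else 0) := fun a i => by
    rw [← sh_w1, comm_pow h1]
    conv_lhs => rw [K_inv h1 h2 i]
    simp only [map_sum, map_smul, sh_w1]
  have K := K_inv h1 h2
  generalize hβ : (fun j i => co k lam0 (p1 j) 0 (Y (wv k (p1 i)))) = β at *
  have hβ' : ∀ j i, co k lam0 (p1 j) 0 (Y (wv k (p1 i))) = β j i := fun j i => by rw [← hβ]
  simp only [hβ'] at A K h0
  have z1 : G k 1 88 = 0 := G_zero (by decide)
  have z2 : G k 1 89 = 0 := G_zero (by decide)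
  have z3 : G k 2 89 = 0 := G_zero (by decide)
  have z4 : G k 3 89 = 0 := G_zero (by decide)
  have a61 := A 6 1
  have a70 := A 7 0
  have a72 := A 7 2
  have a73 := A 7 3
  simp only [Fin.sum_univ_four] at a61 a70 a72 a73
  have n2 : (2 : Fin 4) ≠ 0 := by decide
  have n3 : (3 : Fin 4) ≠ 0 := by decide
  norm_num [z1, z2, z3, z4, h0, n2, n3] at a61 a70 a72 a73
  have c : ∀ (j : Fin 4) (m : ℕ), co k lam0 (p0 j) m (β 0 1 • G k 0 88 + β 1 1 • G k 0 89 +
      (β 2 1 • G k 2 88 + β 2 1 • G k 0 90) + (β 3 1 • G k 3 88 + β 3 1 • G k 0 91)) =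
      co k lam0 (p0 j) m (β 1 0 • G k 0 90 + β 2 0 • G k 0 91 + β 3 0 • G k 0 92) :=
    fun j m => by rw [← a61, ← a70]
  have c1 := c 2 88
  have c2 := c 3 88
  have c3 := c 0 88
  have c4 := c 0 89
  have c5 := c 0 90
  have c6 := c 0 91
  have c7 := c 0 92
  have m0 : mu 0 = 11 := rfl
  have m2 : mu 2 = 7 := rfl
  have m3 : mu 3 = 7 := rfl
  have n4 : (2 : Fin 4) ≠ 3 := by decide
  simp [co_G, m0, m2, m3, n2, n3, n4, n2.symm, n3.symm, n4.symm] at c1 c2 c3 c4 c5 c6 c7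
  rw [c1] at c5
  rw [c2] at c6
  rw [← c5, ← c6, ← c7] at a70
  simp only [zero_smul, add_zero] at a70
  have y2 : Y (G k 0 91) = 0 := by
    rw [show (91 : ℕ) = 89 + 2 from rfl, ← sh_G, comm_pow h1, a70, map_zero]
  have y3 : Y (G k 0 92) = 0 := by
    rw [show (92 : ℕ) = 89 + 3 from rfl, ← sh_G, comm_pow h1, a70, map_zero]
  rw [y2] at a72
  rw [y3] at a73
  have d1 := congrArg (co k lam0 (p0 0) 89) a72
  have d2 := congrArg (co k lam0 (p0 0) 90) a72
  have d3 := congrArg (co k lam0 (p0 0) 91) a72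
  have d4 := congrArg (co k lam0 (p0 0) 92) a72
  have f1 := congrArg (co k lam0 (p0 0) 89) a73
  have f2 := congrArg (co k lam0 (p0 0) 90) a73
  have f3 := congrArg (co k lam0 (p0 0) 91) a73
  have f4 := congrArg (co k lam0 (p0 0) 92) a73
  simp [co_G, m0] at d1 d2 d3 d4 f1 f2 f3 f4
  rw [K i, Fin.sum_univ_four]
  fin_cases i
  · simp [h0, ← c5, ← c6, ← c7]
  · simp [c1, c2, c3, c4]
  · simp [← d1, ← d2, ← d3, ← d4]
  · simp [← f1, ← f2, ← f3, ← f4]

theorem src_scalar : ∃ W : Submodule k (Ix lam0 → k), finrank k W ≤ 31 ∧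
    ∀ X ∈ cent (sh k lam0), X ∈ cm W W → ∃ u : k, X = u • (1 : End k (Ix lam0 → k)) := by
  refine ⟨WW k, ?_, fun X x1 x2 => ⟨co k lam0 (p1 0) 0 (X (wv k (p1 0))), ?_⟩⟩
  · have h := finrank_range_le_card (R := k) (wv k)
    have : Fintype.card PP = 31 := by decide
    rw [this] at h
    exact h
  set u := co k lam0 (p1 0) 0 (X (wv k (p1 0))) with hu
  have h1 : X - u • 1 ∈ cent (sh k lam0) :=
    Submodule.sub_mem _ x1 (Submodule.smul_mem _ _ (by simp [mem_cent]))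
  have h2 : X - u • 1 ∈ cm (WW k) (WW k) :=
    Submodule.sub_mem _ x2 (Submodule.smul_mem _ _ fun v hv => hv)
  have h0 : co k lam0 (p1 0) 0 ((X - u • (1 : End k (Ix lam0 → k))) (wv k (p1 0))) = 0 := by
    simp [co_wv, cw_zero, ← hu]
  rw [← sub_eq_zero]
  generalize X - u • 1 = Y at h1 h2 h0
  have k1 := kills h1 h2 h0
  have g1 : ∀ a (i : Fin 4), Y (G k i (82 + a) + if i ≠ 0 then G k 0 (82 + a + i) else 0) = 0 :=
    fun a i => by rw [← sh_w1, comm_pow h1, k1, map_zero]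
  have g0 : ∀ a, Y (G k 0 (82 + a)) = 0 := fun a => by simpa using g1 a 0
  have g2 : ∀ a (i : Fin 4), Y (G k i (a + 82)) = 0 := fun a i => by
    have := g1 a i
    rw [map_add, apply_ite Y, add_assoc, g0, map_zero, ite_self, add_zero] at this
    rwa [add_comm]
  have k2 : ∀ p, Y (wv k p) = 0 := fun p => by
    obtain ⟨a, ha⟩ : ∃ a : ℕ, a = 82 := ⟨_, rfl⟩
    apply inj82 ha (h2 _ (Submodule.subset_span ⟨_, rfl⟩))
    rw [← ha] at g2
    have b0 : Y (Bv k lam0 p (0 + a)) = 0 := by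
      by_cases hp : p.2.val = 0
      · have : p = p0 p.1 := by
          obtain ⟨j, i, hi⟩ := p
          cases hp
          rfl
        rw [this]
        exact g2 0 p.1
      · rw [Bv_eq_zero lam0, map_zero]
        unfold lam0
        split_ifs <;> omega
    have b1 := g2 p.2.val p.1
    have b2 := g2 (p.1.val + 1) 0
    rw [← comm_pow h1]
    simp only [wv, map_add, map_ite', sh_pow_Bv, map_zero, b0]
    simp only [G] at b1 b2
    simp [b1, b2]
  have k3 : ∀ (j : Fin 4) m, Y (Bv k lam0 (p0 j) m) = 0 := fun j m => by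
    have := k2 (p0 j)
    have e : wv k (p0 j) = Bv k lam0 (p0 j) 0 := by simp [wv, p0]
    rw [e] at this
    rw [← zero_add m, ← sh_pow_Bv, comm_pow h1, this, map_zero]
  refine ext_Bv lam0 fun p m _ => ?_
  have := k2 p
  simp only [wv, map_add, apply_ite Y, k3, map_zero, ite_self, add_zero] at this
  rw [← zero_add m, ← sh_pow_Bv, comm_pow h1, this, map_zero, LinearMap.zero_apply]

end Pool.Agent.P.MP_def758_al
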