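import Pool.Agent.P.MP_def758_al.Top
import Pool.Agent.P.MP_def758_al.Src
import Pool.Agent.P.MP_def758_al.CentSq
import Pool.Agent.P.MP_def758_al.Bridge

namespace Pool.Agent.P.MP_def758_al

open Module Finset

variable {k : Type*} [Field k]

theorem card_Ix : Fintype.card (Ix lam0) = 2569 := by
  rw [Fintype.card_sigma]
  simp only [Fintype.card_fin]
  decide +kernel

theorem finrank_V : finrank k (Ix lam0 → k) = 2569 := by
  rw [finrank_fintype_fun_eq_card, card_Ix]

theorem num1 : ∑ i ∈ range 93, (∑ p, #{j ∈ range (lam0 p) | j / 1 = i}) ^ 2 = 78679 := by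
  decide +kernel

theorem num2 : ∑ i ∈ range 47, (∑ p, #{j ∈ range (lam0 p) | j / 2 = i}) ^ 2 = 157337 := by
  decide +kernel

theorem num3 : ∑ p, (∑ q, min (lam0 q) (2 * ((lam0 p + 1) / 2))
    + ∑ q, min (lam0 q) (2 * (lam0 p / 2))) = 157337 := by
  decide +kernel

theorem sup_top_of {V : Type*} [AddCommGroup V] [Module k V] [FiniteDimensional k V]
    {A B : Submodule k V} (h : A ⊓ B = ⊥) (hd : finrank k V ≤ finrank k A + finrank k B) :
    A ⊔ B = ⊤ := by
  apply Submodule.eq_top_of_finrank_eq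
  have h1 := Submodule.finrank_sup_add_finrank_inf_eq A B
  have h2 := Submodule.finrank_le (A ⊔ B)
  rw [h, finrank_bot] at h1
  omega

theorem src_ok [CharZero k] : ∃ h : Submodule k (End k (Ix lam0 → k)), LieC h ∧
    h ≤ tr0 k _ ∧ h ⊓ cent (sh k lam0) = ⊥ ∧ h ⊔ cent (sh k lam0) = ⊤ := by
  obtain ⟨W, hW, hX⟩ := src_scalar (k := k)
  have hi : (cm W W ⊓ tr0 k _) ⊓ cent (sh k lam0) = ⊥ := by
    rw [eq_bot_iff]
    rintro X ⟨⟨h1, h2⟩, h3⟩
    obtain ⟨u, rfl⟩ := hX X h3 h1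
    have h4 : LinearMap.trace k _ (u • (1 : End k (Ix lam0 → k))) = 0 := h2
    rw [map_smul, LinearMap.trace_one, finrank_V, smul_eq_mul] at h4
    have : u = 0 := by simpa using h4
    simp [this]
  refine ⟨cm W W ⊓ tr0 k _, ?_, inf_le_right, hi, sup_top_of hi ?_⟩
  · rintro A ⟨a1, -⟩ B ⟨b1, -⟩
    refine ⟨fun v hv => W.sub_mem (a1 _ (b1 v hv)) (b1 _ (a1 v hv)), ?_⟩
    change LinearMap.trace k _ (A * B - B * A) = 0
    rw [map_sub, LinearMap.trace_mul_comm, sub_self]
  · have h1 := L6 (cm W W)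
    have h2 := finrank_cm W W
    have h3 := le_finrank_blk (k := k) (fun a : Ix lam0 => a.2.val / 1) (range 93)
    simp only [card_fiber] at h3
    rw [num1] at h3
    have h4 := Submodule.finrank_mono (blk_le_cent (k := k) (fun a : Ix lam0 => a.2.val / 1))
    have h5 := Dg_sh (k := k) lam0 1 one_pos
    rw [pow_one] at h5
    have h6 := cent_le (sh_nilpotent lam0) h5
    rw [finrank_End, finrank_V]
    rw [finrank_V] at h2
    have h7 : finrank k W * (2569 - finrank k W) ≤ 31 * 2538 := by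
      generalize finrank k W = w at hW
      interval_cases w <;> norm_num
    omega

theorem tgt_no [IsAlgClosed k] [CharZero k] (h : Submodule k (End k (Ix lam0 → k)))
    (hh : LieC h) (hi : h ⊓ cent (sh k lam0 ^ 2) = ⊥) (hs : h ⊔ cent (sh k lam0 ^ 2) = ⊤) :
    False := by
  have hn : IsNilpotent (sh k lam0 ^ 2) := (sh_nilpotent lam0).pow_of_pos two_ne_zero
  obtain ⟨h', d, hl, hc⟩ := deform hn (Dg_sh (k := k) lam0 2 two_pos) h hi
  have hb : h' ⊓ blk k (fun a : Ix lam0 => a.2.val / 2) = ⊥ :=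
    eq_bot_iff.2 (hc ▸ inf_le_inf_left _ (blk_le_cent _))
  have h1 := finrank_cent_sq (k := k) lam0
  rw [num3] at h1
  have h2 := Submodule.finrank_sup_add_finrank_inf_eq h (cent (sh k lam0 ^ 2))
  rw [hi, hs, finrank_bot, finrank_top, finrank_End, finrank_V] at h2
  have h3 := le_finrank_blk (k := k) (fun a : Ix lam0 => a.2.val / 2) (range 47)
  simp only [card_fiber] at h3
  rw [num2] at h3
  have h4 := Submodule.finrank_sup_add_finrank_inf_eq h' (blk k (fun a : Ix lam0 => a.2.val / 2))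
  have h5 := Submodule.finrank_le (h' ⊔ blk k (fun a : Ix lam0 => a.2.val / 2))
  rw [hb, finrank_bot] at h4
  rw [finrank_End, finrank_V] at h5
  refine top (fun a : Ix lam0 => a.2.val / 2) card_Ix ?_ ?_ ?_ ?_ ?_ ?_ ?_ ?_ ?_ h' (hl hh) hb
    (sup_top_of hb ?_) (by omega)
  all_goals first
    | (rw [card_fiber]; decide +kernel)
    | (rw [finrank_End, finrank_V]; omega)

attribute [local instance 100] LieRing.ofAssociativeRing

open LieAlgebra.SpecialLinear in
theorem main_aux (k : Type*) [Field k] [IsAlgClosed k] [CharZero k] {n : ℕ}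
    (b : Basis (Fin n) k (Ix lam0 → k)) :
    ∃ (e f : sl (Fin n) k), IsNilpotent (e : Matrix (Fin n) (Fin n) k) ∧
      (f : Matrix (Fin n) (Fin n) k) = (e : Matrix (Fin n) (Fin n) k) ^ 2 ∧
      Strange e ∧ ¬ Strange f := by
  have hn : IsNilpotent (sh k lam0) := sh_nilpotent lam0
  have hn2 : IsNilpotent (sh k lam0 ^ 2) := hn.pow_of_pos two_ne_zero
  have tr : ∀ x : End k (Ix lam0 → k), IsNilpotent x →
      LinearMap.toMatrix b b x ∈ sl (Fin n) k := fun x hx => by
    change Matrix.trace (LinearMap.toMatrix b b x) = 0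
    rw [← LinearMap.trace_eq_matrix_trace]
    exact (LinearMap.isNilpotent_trace_of_isNilpotent hx).eq_zero
  refine ⟨⟨_, tr _ hn⟩, ⟨_, tr _ hn2⟩, ?_, ?_, ?_, fun hS => ?_⟩
  · exact hn.map (LinearMap.toMatrixAlgEquiv b)
  · exact map_pow (LinearMap.toMatrixAlgEquiv b) _ 2
  · obtain ⟨h, h1, h2, h3, h4⟩ := src_ok (k := k)
    exact strange_of b _ _ rfl h h1 h2 h3 h4
  · obtain ⟨h, h1, h2, h3⟩ := of_strange b _ _ rfl hS
    exact tgt_no h h1 h2 h3

open LieAlgebra.SpecialLinear in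
theorem main (k : Type*) [Field k] [IsAlgClosed k] [CharZero k] :
    ∃ (n : ℕ) (e f : sl (Fin n) k), 2 ≤ n ∧ IsNilpotent (e : Matrix (Fin n) (Fin n) k) ∧
      (f : Matrix (Fin n) (Fin n) k) = (e : Matrix (Fin n) (Fin n) k) ^ 2 ∧
      Strange e ∧ ¬ Strange f := by
  obtain ⟨e, f, h⟩ := main_aux k (finBasisOfFinrankEq k _ finrank_V)
  exact ⟨2569, e, f, by norm_num, h⟩

end Pool.Agent.P.MP_def758_al
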