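import Pool.Agent.P.MP_def758_al.Blk

namespace Pool.Agent.P.MP_def758_al

open Module Finset

variable {k : Type*} [Field k] {ι : Type*} [Fintype ι] [DecidableEq ι]

omit [DecidableEq ι] in
theorem ro_supp (deg : ι → ℕ) (i : ℕ) (C : Submodule k (ι → k))
    (h : Fintype.card ι < finrank k C + #{a | deg a = i}) :
    ∃ u ∈ C, (∃ a, u a ≠ 0) ∧ ∀ a, deg a ≠ i → u a = 0 := by
  have h1 : finrank k ({a // ¬ deg a = i} → k) < finrank k C := by
    have h2 : #{a | deg a = i} ≤ Fintype.card ι := card_le_univ _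
    rw [finrank_fintype_fun_eq_card, Fintype.card_subtype_compl, Fintype.card_subtype]
    omega
  obtain ⟨u, hu, hu0⟩ := Submodule.exists_mem_ne_zero_of_ne_bot (LinearMap.ker_ne_bot_of_finrank_lt
    (f := LinearMap.funLeft k k (Subtype.val : {a // ¬ deg a = i} → ι) ∘ₗ C.subtype) h1)
  exact ⟨u, u.2, Function.ne_iff.1 fun e => hu0 (Subtype.ext e), fun a ha => congrFun hu ⟨a, ha⟩⟩

theorem ro_one (deg : ι → ℕ) (i : ℕ) (I C : Submodule k (ι → k))
    (hI : finrank k I < #{a | deg a = i}) (hC : Fintype.card ι < finrank k C + #{a | deg a = i}) :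
    ∃ X ∈ cm I ⊥ ⊓ cm ⊤ C, (∃ a b, X (Pi.single b 1) a ≠ 0) ∧
      ∀ a b, deg a ≠ i ∨ deg b ≠ i → X (Pi.single b 1) a = 0 := by
  obtain ⟨u, hu, ⟨a, ha⟩, hu'⟩ := ro_supp deg i C hC
  have h1 := ((dotProductBilin k k).compl₂ I.subtype).finrank_range_add_finrank_ker
  have h2 := Submodule.finrank_le (LinearMap.range ((dotProductBilin k k).compl₂ I.subtype))
  rw [finrank_linearMap, finrank_self, mul_one] at h2
  rw [finrank_fintype_fun_eq_card] at h1
  obtain ⟨l, hl, ⟨b, hb⟩, hl'⟩ :=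
    ro_supp deg i (LinearMap.ker ((dotProductBilin k k).compl₂ I.subtype)) (by omega)
  refine ⟨(dotProductBilin k k l).smulRight u, ⟨fun v hv => ?_, fun v _ => C.smul_mem _ hu⟩,
    ⟨a, b, by simp [ha, hb]⟩, fun a b h => ?_⟩
  · have h3 : l ⬝ᵥ v = 0 := LinearMap.congr_fun hl ⟨v, hv⟩
    simp [h3]
  · rcases h with h | h
    · simp [hu' a h]
    · simp [hl' b h]

/-- two rank one elements in two big blocks -/
theorem exists_rankone (deg : ι → ℕ) {i j : ℕ} (hij : i ≠ j) (I C : Submodule k (ι → k))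
    (hIi : finrank k I < #{a | deg a = i}) (hIj : finrank k I < #{a | deg a = j})
    (hCi : Fintype.card ι < finrank k C + #{a | deg a = i})
    (hCj : Fintype.card ι < finrank k C + #{a | deg a = j}) :
    ∃ X ∈ cm I ⊥ ⊓ cm ⊤ C ⊓ tr0 k (ι → k), X ∈ blk k deg ∧ X ≠ 0 := by
  obtain ⟨X, hX, ⟨a, b, h1⟩, h2⟩ := ro_one deg i I C hIi hCi
  obtain ⟨Y, hY, ⟨c, d, h3⟩, h4⟩ := ro_one deg j I C hIj hCj
  have hXb : X ∈ blk k deg := fun a b h => h2 a b (by omega)
  have hYb : Y ∈ blk k deg := fun a b h => h4 a b (by omega)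
  by_cases ht : LinearMap.trace k _ X = 0
  · exact ⟨X, ⟨hX, ht⟩, hXb, fun e => h1 (by simp [e])⟩
  refine ⟨LinearMap.trace k _ X • Y - LinearMap.trace k _ Y • X,
    ⟨sub_mem (Submodule.smul_mem _ _ hY) (Submodule.smul_mem _ _ hX), mem_tr0.2 ?_⟩,
    sub_mem (Submodule.smul_mem _ _ hYb) (Submodule.smul_mem _ _ hXb), fun e => ?_⟩
  · simp [mul_comm]
  · have h5 : deg c = j := by_contra fun h => h3 (h4 c d (Or.inl h))
    have h6 := congrFun (LinearMap.congr_fun e (Pi.single d 1)) c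
    simp [h2 c d (Or.inl (by omega)), ht, h3] at h6

end Pool.Agent.P.MP_def758_al
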