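import Pool.Agent.P.MP_def758_al.Defs

namespace Pool.Agent.P.MP_def758_al

open Module Finset

variable {k : Type*} [Field k] {P : Type*} [Fintype P] [DecidableEq P] (lam : P → ℕ)

omit [Fintype P] [DecidableEq P] in
theorem shift_co_pos {q : P} {j : ℕ} (h : j < lam q) (v : Ix lam → k) :
    co k lam q j v = v ⟨q, ⟨j, h⟩⟩ := dif_pos h

omit [Fintype P] [DecidableEq P] in
theorem shift_co_neg {q : P} {j : ℕ} (h : ¬ j < lam q) (v : Ix lam → k) :
    co k lam q j v = 0 := dif_neg h

omit [Fintype P] [DecidableEq P] in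
theorem shift_sh_apply (v : Ix lam → k) (a : Ix lam) :
    sh k lam v a = if a.2.val = 0 then 0 else co k lam a.1 (a.2.val - 1) v := rfl

omit [Fintype P] in
theorem sh_Bv (p : P) (i : ℕ) : sh k lam (Bv k lam p i) = Bv k lam p (i + 1) := by
  funext ⟨q, j, hj⟩
  rw [shift_sh_apply]
  by_cases h0 : j = 0
  · subst h0
    simp [Bv]
  · have h1 : j - 1 < lam q := by omega
    have h2 : j - 1 = i ↔ j = i + 1 := by omega
    simp only [h0, if_false]
    rw [shift_co_pos lam h1]
    simp only [Bv, h2]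

omit [Fintype P] in
theorem sh_pow_Bv (m : ℕ) (p : P) (i : ℕ) :
    (sh k lam ^ m) (Bv k lam p i) = Bv k lam p (i + m) := by
  induction m with
  | zero => rfl
  | succ m ih => rw [pow_succ', Module.End.mul_apply, ih, sh_Bv, add_assoc]

omit [Fintype P] in
theorem Bv_eq_zero {p : P} {i : ℕ} (h : lam p ≤ i) : Bv k lam p i = 0 := by
  funext ⟨q, j, hj⟩
  refine if_neg ?_
  rintro ⟨h1, h2⟩
  simp only at h1 h2
  subst h1
  omega

omit [Fintype P] in
theorem co_Bv (q : P) (j : ℕ) (p : P) (i : ℕ) :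
    co k lam q j (Bv k lam p i) = if q = p ∧ j = i ∧ j < lam q then 1 else 0 := by
  by_cases h : j < lam q
  · rw [shift_co_pos lam h]
    simp only [Bv, h, and_true]
  · rw [shift_co_neg lam h]
    simp only [h, and_false, if_false]

omit [Fintype P] [DecidableEq P] in
theorem co_sh_pow (m : ℕ) (q : P) (j : ℕ) (v : Ix lam → k) :
    co k lam q j ((sh k lam ^ m) v) = if m ≤ j ∧ j < lam q then co k lam q (j - m) v else 0 := by
  induction m generalizing j with
  | zero =>
    by_cases h : j < lam q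
    · simp [h]
    · simp [h, shift_co_neg lam h]
  | succ m ih =>
    rw [pow_succ', Module.End.mul_apply]
    by_cases h : j < lam q
    · rw [shift_co_pos lam h, shift_sh_apply]
      by_cases h0 : j = 0
      · subst h0
        simp
      · simp only [h0, if_false]
        rw [ih]
        have e1 : (m ≤ j - 1 ∧ j - 1 < lam q) ↔ (m + 1 ≤ j ∧ j < lam q) := by omega
        have e2 : j - 1 - m = j - (m + 1) := by omega
        simp only [e1, e2]
    · rw [shift_co_neg lam h, if_neg fun hh => h hh.2]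

omit [Fintype P] [DecidableEq P] in
theorem ext_co {v w : Ix lam → k} (h : ∀ q j, j < lam q → co k lam q j v = co k lam q j w) :
    v = w := by
  funext ⟨q, j, hj⟩
  have := h q j hj
  rwa [shift_co_pos lam hj, shift_co_pos lam hj] at this

theorem ext_Bv {U : Type*} [AddCommGroup U] [Module k U] {A B : (Ix lam → k) →ₗ[k] U}
    (h : ∀ p i, i < lam p → A (Bv k lam p i) = B (Bv k lam p i)) : A = B := by
  refine (Pi.basisFun k (Ix lam)).ext fun ⟨p, i, hi⟩ => ?_
  have e : Pi.basisFun k (Ix lam) ⟨p, i, hi⟩ = Bv k lam p i := by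
    funext ⟨q, j, hj⟩
    rw [Pi.basisFun_apply, Pi.single_apply]
    refine if_congr ⟨fun e => ?_, ?_⟩ rfl rfl
    · cases e
      exact ⟨rfl, rfl⟩
    · rintro ⟨h1, h2⟩
      simp only at h1 h2
      subst h1 h2
      rfl
  rw [e]
  exact h p i hi

theorem sh_nilpotent : IsNilpotent (sh k lam) := by
  refine ⟨univ.sup lam, ext_Bv lam fun p i _ => ?_⟩
  rw [sh_pow_Bv, Bv_eq_zero lam]
  · rfl
  · exact (le_sup (f := lam) (mem_univ p)).trans (Nat.le_add_left _ _)

omit [Fintype P] in
theorem shift_Dg_Bv (r : ℕ) (p : P) (i : ℕ) :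
    Dg k (fun a : Ix lam => a.2.val / r) (Bv k lam p i) = ((i / r : ℕ) : k) • Bv k lam p i := by
  funext a
  rw [Dg_apply, Pi.smul_apply, smul_eq_mul]
  by_cases h : a.1 = p ∧ a.2.val = i
  · rw [h.2]
  · have : Bv k lam p i a = 0 := if_neg h
    rw [this, mul_zero, mul_zero]

theorem Dg_sh (r : ℕ) (hr : 0 < r) :
    Dg k (fun a : Ix lam => a.2.val / r) * sh k lam ^ r
      - sh k lam ^ r * Dg k (fun a : Ix lam => a.2.val / r) = sh k lam ^ r := by
  refine ext_Bv lam fun p i _ => ?_
  rw [LinearMap.sub_apply, Module.End.mul_apply, Module.End.mul_apply, shift_Dg_Bv, map_smul,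
    sh_pow_Bv, shift_Dg_Bv, Nat.add_div_right _ hr, Nat.cast_succ, add_smul, one_smul,
    add_sub_cancel_left]

theorem card_fiber (r i : ℕ) :
    #{a : Ix lam | a.2.val / r = i} = ∑ p, #{j ∈ range (lam p) | j / r = i} := by
  rw [card_filter, ← univ_sigma_univ, sum_sigma]
  refine sum_congr rfl fun p _ => ?_
  rw [card_filter]
  exact Fin.sum_univ_eq_sum_range (fun j => if j / r = i then 1 else 0) (lam p)

end Pool.Agent.P.MP_def758_al
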