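import Pool.Agent.P.MP_def758_al.Defs

namespace Pool.Agent.P.MP_def758_al

open Module Finset

variable {k : Type*} [Field k] {ι : Type*} [Fintype ι] [DecidableEq ι]

/-- the transposed endomorphism -/
noncomputable def transp_tp (k ι : Type*) [Field k] [Fintype ι] [DecidableEq ι] :
    End k (ι → k) ≃ₗ[k] End k (ι → k) :=
  (LinearMap.toMatrix'.trans (Matrix.transposeLinearEquiv ι ι k k)).trans Matrix.toLin'

theorem transp_apply (A : End k (ι → k)) :
    transp_tp k ι A = Matrix.toLin' (LinearMap.toMatrix' A).transpose := rfl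

theorem transp_mul (A B : End k (ι → k)) :
    transp_tp k ι (A * B) = transp_tp k ι B * transp_tp k ι A := by
  rw [transp_apply, transp_apply, transp_apply, LinearMap.toMatrix'_mul, Matrix.transpose_mul,
    Matrix.toLin'_mul]
  rfl

theorem transp_entry (A : End k (ι → k)) (a b : ι) :
    transp_tp k ι A (Pi.single b 1) a = A (Pi.single a 1) b := by
  rw [transp_apply, Matrix.toLin'_apply, Matrix.mulVec_single_one, Matrix.col_apply,
    Matrix.transpose_apply, LinearMap.toMatrix'_apply]

theorem transp_dot (A : End k (ι → k)) (v w : ι → k) :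
    transp_tp k ι A v ⬝ᵥ w = v ⬝ᵥ A w := by
  rw [transp_apply, Matrix.toLin'_apply, Matrix.mulVec_transpose, ← Matrix.dotProduct_mulVec,
    LinearMap.toMatrix'_mulVec]

theorem transp_blk' (deg : ι → ℕ) :
    (blk k deg).map (transp_tp k ι : End k (ι → k) →ₗ[k] End k (ι → k)) ≤ blk k deg := by
  rintro _ ⟨A, hA, rfl⟩ a b hab
  exact (transp_entry A a b).trans (hA b a hab.symm)

/-- transposition -/
theorem exists_transpose (deg : ι → ℕ) (h : Submodule k (End k (ι → k))) (hh : LieC h)
    (hs : h ⊔ blk k deg = ⊤) (C : Submodule k (ι → k)) (hC : h ≤ cm C C) :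
    ∃ (h' : Submodule k (End k (ι → k))) (W : Submodule k (ι → k)), LieC h' ∧
      h' ⊔ blk k deg = ⊤ ∧ finrank k h' = finrank k h ∧ h' ≤ cm W W ∧
      finrank k W + finrank k C = Fintype.card ι := by
  refine ⟨h.map (transp_tp k ι : End k (ι → k) →ₗ[k] End k (ι → k)),
    C.dualAnnihilator.comap (dotProductEquiv k ι : (ι → k) →ₗ[k] Dual k (ι → k)),
    ?_, ?_, ?_, ?_, ?_⟩
  · rintro _ ⟨A, hA, rfl⟩ _ ⟨B, hB, rfl⟩
    refine ⟨B * A - A * B, hh B hB A hA, ?_⟩
    simp only [LinearEquiv.coe_coe, map_sub, transp_mul]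
  · rw [eq_top_iff]
    calc (⊤ : Submodule k (End k (ι → k)))
        = (h ⊔ blk k deg).map (transp_tp k ι : End k (ι → k) →ₗ[k] End k (ι → k)) := by
          rw [hs, Submodule.map_top, LinearEquiv.range]
      _ ≤ _ := by
          rw [Submodule.map_sup]
          exact sup_le_sup_left (transp_blk' deg) _
  · exact LinearEquiv.finrank_map_eq _ _
  · rintro _ ⟨A, hA, rfl⟩ v hv
    rw [Submodule.mem_comap, Submodule.mem_dualAnnihilator] at hv ⊢
    intro w hw
    have h1 := hv (A w) (hC hA w hw)
    simp only [LinearEquiv.coe_coe, dotProductEquiv_apply_apply] at h1 ⊢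
    rw [transp_dot, h1]
  · rw [Submodule.comap_equiv_eq_map_symm, LinearEquiv.finrank_map_eq, add_comm,
      Subspace.finrank_add_finrank_dualAnnihilator_eq, Module.finrank_fintype_fun_eq_card]

end Pool.Agent.P.MP_def758_al
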