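import Pool.Agent.P.MP_def758_al.LevM
import Pool.Agent.P.MP_def758_al.RankOne
import Pool.Agent.P.MP_def758_al.Transp

namespace Pool.Agent.P.MP_def758_al

open Module Finset

variable {k : Type*} [Field k] {ι : Type*} [Fintype ι] [DecidableEq ι]

theorem topM [IsAlgClosed k] (deg : ι → ℕ) (hn : Fintype.card ι = 2569)
    (m40 : #{a | deg a = 40} = 58)
    (m41 : #{a | deg a = 41} = 8) (m42 : #{a | deg a = 42} = 8) (m43 : #{a | deg a = 43} = 8)
    (m44 : #{a | deg a = 44} = 4) (m45 : #{a | deg a = 45} = 2) (m46 : #{a | deg a = 46} = 1)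
    (h : Submodule k (End k (ι → k))) (hh : LieC h)
    (hs : h ⊔ blk k deg = ⊤) (hd : finrank k h + 157337 = 2569 * 2569)
    (W : Submodule k (ι → k)) (hW : finrank k W = 62) (hhW : h ≤ cm W W) : False := by
  have hV : finrank k (ι → k) = 2569 := by rw [finrank_fintype_fun_eq_card, hn]
  have F : ∀ (S : Finset ℕ) (c : ℕ), ∑ i ∈ S, #{a | deg a = i} + c = 2569 →
      finrank k (ZS k deg S) = c := fun S c hc => by
    have := finrank_ZS (k := k) deg S
    omega
  refine levM hV (ZS k deg {40}) (ZS k deg {41}) (ZS k deg {42}) (ZS k deg {43}) (ZS k deg {44})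
    (ZS k deg {45}) (ZS k deg {46}) ?_ ?_ ?_ ?_ ?_ ?_ ?_ ?_ ?_ ?_ ?_ ?_ ?_ ?_ h (blk k deg) hh hs hd
    (blk_le_cm _ _) (blk_le_cm _ _) (blk_le_cm _ _) (blk_le_cm _ _) (blk_le_cm _ _)
    (blk_le_cm _ _) (blk_le_cm _ _) W hW hhW
  all_goals
    repeat rw [ZS_inf]
    apply F
    repeat rw [sum_union (by decide)]
    simp only [sum_singleton, m40, m41, m42, m43, m44, m45, m46, Nat.reduceAdd]

theorem top [IsAlgClosed k] (deg : ι → ℕ) (hn : Fintype.card ι = 2569)
    (m0 : #{a | deg a = 0} = 62) (m1 : #{a | deg a = 1} = 62) (m40 : #{a | deg a = 40} = 58)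
    (m41 : #{a | deg a = 41} = 8) (m42 : #{a | deg a = 42} = 8) (m43 : #{a | deg a = 43} = 8)
    (m44 : #{a | deg a = 44} = 4) (m45 : #{a | deg a = 45} = 2) (m46 : #{a | deg a = 46} = 1)
    (h : Submodule k (End k (ι → k))) (hh : LieC h) (hi : h ⊓ blk k deg = ⊥)
    (hs : h ⊔ blk k deg = ⊤) (hd : finrank k h + 157337 = 2569 * 2569) : False := by
  have hV : finrank k (ι → k) = 2569 := by rw [finrank_fintype_fun_eq_card, hn]
  obtain ⟨I, C, hI, hC, d, hle⟩ := lemA h hh 157337 122 (by rw [hV]; omega) (by rw [hV]; omega)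
    (by rw [hV]; omega)
  have key : ∀ Y : Submodule k (ι → k), h ≤ cm Y Y → finrank k Y ≤ 62 ∨ 2507 ≤ finrank k Y := by
    intro Y hY
    have e1 := finrank_cm Y Y
    have e2 := Submodule.finrank_mono hY
    rw [hV] at e1
    by_contra hc
    obtain ⟨u, hu⟩ : ∃ u, finrank k Y + u = 2569 := ⟨2569 - finrank k Y, by omega⟩
    have e3 : 2569 - finrank k Y = u := by omega
    rw [e3] at e1
    have e4 : 63 ≤ finrank k Y := by omega
    have e5 : 63 ≤ u := by omega
    obtain ⟨a, ha⟩ := Nat.exists_eq_add_of_le e4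
    obtain ⟨b, hb⟩ := Nat.exists_eq_add_of_le e5
    rw [ha, hb] at e1 hu
    nlinarith
  have i1 := key I hI
  have i2 := key C hC
  have i3 := Submodule.finrank_le C
  rw [hV] at d i3
  by_cases c1 : finrank k I = 62
  · exact topM deg hn m40 m41 m42 m43 m44 m45 m46 h hh hs hd I c1 hI
  by_cases c2 : finrank k C = 2507
  · obtain ⟨h', W, x1, x2, x3, x4, x5⟩ := exists_transpose deg h hh hs C hC
    exact topM deg hn m40 m41 m42 m43 m44 m45 m46 h' x1 x2 (by omega) W (by omega) x4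
  obtain ⟨X, x1, x2, x3⟩ := exists_rankone deg (zero_ne_one) I C (by omega) (by omega) (by omega)
    (by omega)
  exact x3 ((Submodule.mem_bot k).1 (hi ▸ ⟨hle x1, x2⟩))

end Pool.Agent.P.MP_def758_al
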